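import Pool.Agent.Lib_MP_a23b08_n0.N0Yd

/-!
# MP_a23b08_al, part N0: integer contraction of the complexes computing `Ext(Yd i, S_j)`

`d1L`, `d2L`, `d3L` are the differentials on basis elements (formal sums with integer coefficients), `sL`, `tL`, `uL` the
contraction; the identities `I1`, `I2`, `I3` are checked by `decide`.
-/

set_option autoImplicit false

open CategoryTheory

namespace GZ

namespace N0

section formal

variable {X Y : Type} {N : Type} [AddCommGroup N]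

/-- the value of a formal sum -/
def ev (F : X → N) (l : List (ℤ × X)) : N := (l.map fun t => t.1 • F t.2).sum

@[simp] lemma ev_nil (F : X → N) : ev F [] = 0 := rfl
@[simp] lemma ev_cons (F : X → N) (t : ℤ × X) (l : List (ℤ × X)) : ev F (t :: l) = t.1 • F t.2 + ev F l := by
  simp [ev]
lemma ev_append (F : X → N) (l m : List (ℤ × X)) : ev F (l ++ m) = ev F l + ev F m := by
  simp [ev]

/-- substitution in a formal sum -/
def bindL (l : List (ℤ × X)) (T : X → List (ℤ × Y)) : List (ℤ × Y) :=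
  l.flatMap fun s => (T s.2).map fun r => (s.1 * r.1, r.2)

lemma ev_mulmap (F : X → N) (c : ℤ) (l : List (ℤ × X)) :
    ev F (l.map fun r => (c * r.1, r.2)) = c • ev F l := by
  induction l with
  | nil => simp
  | cons t l ih => simp [ih, mul_smul, smul_add]

lemma ev_bindL (F : Y → N) (l : List (ℤ × X)) (T : X → List (ℤ × Y)) :
    ev F (bindL l T) = ev (fun x => ev F (T x)) l := by
  induction l with
  | nil => rfl
  | cons t l ih =>
    rw [ev_cons, ← ih, ← ev_mulmap, ← ev_append]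
    rfl

/-- remove one occurrence -/
def rem1 [DecidableEq X] (t : ℤ × X) : List (ℤ × X) → Option (List (ℤ × X))
  | [] => none
  | s :: l => if s = t then some l else (rem1 t l).map (s :: ·)

/-- a formal sum whose terms cancel in pairs -/
def canc [DecidableEq X] : ℕ → List (ℤ × X) → Bool
  | _, [] => true
  | 0, _ :: _ => false
  | n + 1, t :: l =>
    match rem1 (-t.1, t.2) l with
    | none => false
    | some l' => canc n l'

lemma ev_rem1 [DecidableEq X] (F : X → N) (t : ℤ × X) (l l' : List (ℤ × X)) (h : rem1 t l = some l') :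
    ev F l = t.1 • F t.2 + ev F l' := by
  induction l generalizing l' with
  | nil => simp [rem1] at h
  | cons s l ih =>
    rw [rem1] at h
    split_ifs at h with hs
    · rw [ev_cons, hs, Option.some.inj h]
    · rw [Option.map_eq_some_iff] at h
      obtain ⟨l₂, h1, rfl⟩ := h
      rw [ev_cons, ev_cons, ih l₂ h1]
      abel

lemma ev_canc [DecidableEq X] (F : X → N) (n : ℕ) (l : List (ℤ × X)) (h : canc n l = true) : ev F l = 0 := by
  induction n generalizing l with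
  | zero =>
    cases l with
    | nil => rfl
    | cons t l => simp [canc] at h
  | succ n ih =>
    cases l with
    | nil => rfl
    | cons t l =>
      rw [canc] at h
      rcases h1 : rem1 (-t.1, t.2) l with _ | l'
      · rw [h1] at h; simp at h
      · rw [h1] at h
        rw [ev_cons, ev_rem1 F _ l l' h1, ih l' h]
        simp

end formal

/-- head and tail of the words `w1`, `w2` -/
def h1 (c : Fin 12) : Fin 12 := (w1 c).headD 0
/-- tail -/
def r1 (c : Fin 12) : List (Fin 12) := (w1 c).tail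
/-- head -/
def h2 (c : Fin 12) : Fin 12 := (w2 c).headD 0
/-- tail -/
def r2 (c : Fin 12) : List (Fin 12) := (w2 c).tail

theorem w1_eq : ∀ c, w1 c = h1 c :: r1 c := by decide +kernel
theorem w2_eq : ∀ c, w2 c = h2 c :: r2 c := by decide +kernel

/-- `Y_{src a} → Y_j` for the arrows `a : • → j` -/
def d1L (x : Fin 12 × Fin 80) : List (ℤ × Fin 80) := (actT x.1 x.2).toList.map fun y => (1, y)

/-- `Y_{tgt c} → ⨁ Y_{src a}`: second derivatives of the potential -/
def d2L (x : Fin 12 × Fin 80) : List (ℤ × (Fin 12 × Fin 80)) :=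
  ((actWT actT (r1 x.1) x.2).toList.map fun y => (1, (h1 x.1, y))) ++
    (actWT actT (r2 x.1) x.2).toList.map fun y => (-1, (h2 x.1, y))

/-- `Y_j → ⨁ Y_{tgt c}` for the arrows `c : j → •` -/
def d3L (b : Fin 80) : List (ℤ × (Fin 12 × Fin 80)) :=
  (List.finRange 12).flatMap fun c => (actT c b).toList.map fun y => (1, (c, y))

/-- last arrow and initial part of a basis element -/
def sL (b : Fin 80) : List (ℤ × (Fin 12 × Fin 80)) :=
  match wB b with
  | [] => []
  | a :: w => (actWT actT w (eB (sB b))).toList.map fun y => (1, (a, y))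

/-- table of `tL` -/
def tN : List (List (ℕ × ℤ × Fin 12 × Fin 80)) := [
    [(4, 1, 1, 3), (15, 1, 1, 14), (22, 1, 1, 21), (25, 1, 1, 24), (38, 1, 1, 37),
    (42, 1, 1, 33), (45, 1, 1, 44), (64, 1, 1, 63), (78, 1, 1, 77)],
    [(1, 1, 2, 0), (12, 1, 2, 11), (19, 1, 2, 18), (30, 1, 2, 29), (43, 1, 2, 42),
    (50, 1, 2, 49), (54, 1, 2, 45), (61, 1, 2, 60), (75, 1, 2, 74)],
    [(14, 1, 0, 1), (33, 1, 0, 32), (55, 1, 0, 54), (58, 1, 0, 57), (71, 1, 0, 70)],
    [(2, 1, 4, 1), (13, 1, 4, 12), (20, 1, 4, 19), (31, 1, 4, 30), (36, 1, 4, 32),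
    (51, 1, 4, 50), (62, 1, 4, 61), (66, 1, 4, 57), (76, 1, 4, 75)],
    [(7, 1, 5, 6), (10, 1, 5, 9), (17, 1, 5, 16), (28, 1, 5, 27), (41, 1, 5, 40), (48, 1, 5, 47),
    (67, -1, 1, 58), (73, 1, 5, 72)],
    [(30, 1, 3, 17), (43, 1, 3, 35), (54, 1, 3, 53), (57, 1, 3, 56), (70, 1, 3, 69)],
    [(11, 1, 7, 10), (15, 1, 7, 7), (18, 1, 7, 17), (29, 1, 7, 28), (42, 1, 7, 41),
    (49, 1, 7, 48), (60, 1, 7, 56), (74, 1, 7, 73), (78, 1, 7, 69)],
    [(5, 1, 8, 4), (8, 1, 8, 0), (23, 1, 8, 22), (26, 1, 8, 25), (39, 1, 8, 38), (46, 1, 8, 45),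
    (65, 1, 8, 64), (79, -1, 4, 70)],
    [(35, 1, 6, 34), (53, 1, 6, 52), (67, -1, 0, 61), (69, 1, 6, 68)],
    [(6, 1, 10, 5), (9, 1, 10, 8), (27, 1, 10, 26), (31, -1, 2, 25), (40, 1, 10, 39),
    (47, 1, 10, 46), (66, 1, 10, 65), (72, 1, 10, 68)],
    [(3, 1, 11, 2), (14, 1, 11, 13), (21, 1, 11, 20), (24, 1, 11, 16), (37, 1, 11, 36),
    (55, -1, 7, 53), (63, 1, 11, 62), (77, 1, 11, 76)],
    [(34, 1, 9, 33), (52, 1, 9, 44), (59, 1, 9, 58), (79, -1, 3, 73)]]

/-- table of `uL` -/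
def uN : List (List (ℕ × ℤ × Fin 80)) := [
    [(12, 1, 11), (19, 1, 18), (30, 1, 29), (43, 1, 42), (50, 1, 49), (75, 1, 74)],
    [(55, 1, 54), (71, 1, 70)],
    [(4, 1, 3), (15, 1, 14), (22, 1, 21), (38, 1, 37), (64, 1, 63), (78, 1, 77)],
    [(7, 1, 6), (10, 1, 9), (28, 1, 27), (41, 1, 40), (48, 1, 47), (67, 1, 66)],
    [(43, 1, 35), (54, 1, 53)],
    [(2, 1, 1), (13, 1, 12), (20, 1, 19), (31, 1, 30), (36, 1, 32), (51, 1, 50), (62, 1, 61),
    (66, 1, 57), (76, 1, 75)],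
    [(5, 1, 4), (8, 1, 0), (23, 1, 22), (26, 1, 25), (39, 1, 38), (46, 1, 45), (59, 1, 60),
    (65, 1, 64), (79, 1, 78)],
    [(35, 1, 34), (67, 1, 59)],
    [(11, 1, 10), (15, 1, 7), (18, 1, 17), (29, 1, 28), (42, 1, 41), (49, 1, 48), (60, 1, 56),
    (74, 1, 73), (78, 1, 69)],
    [(3, 1, 2), (14, 1, 13), (21, 1, 20), (24, 1, 16), (37, 1, 36), (55, 1, 51), (63, 1, 62),
    (71, 1, 72), (77, 1, 76)],
    [(23, 1, 24), (34, 1, 33), (52, 1, 44), (59, 1, 58), (79, 1, 71)],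
    [(6, 1, 5), (9, 1, 8), (27, 1, 26), (31, 1, 23), (40, 1, 39), (47, 1, 46), (51, 1, 52),
    (66, 1, 65), (72, 1, 68)]]

/-- contraction -/
def tL (x : Fin 12 × Fin 80) : List (ℤ × (Fin 12 × Fin 80)) :=
  ((tN.getD x.1 []).filter fun r => r.1 == x.2.1).map fun r => (r.2.1, (r.2.2.1, r.2.2.2))

/-- contraction -/
def uL (x : Fin 12 × Fin 80) : List (ℤ × Fin 80) :=
  ((uN.getD x.1 []).filter fun r => r.1 == x.2.1).map fun r => (r.2.1, r.2.2)

theorem I1 : ∀ a b, tB b = srcA a →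
    canc 9 ((-1, (a, b)) :: (bindL (d1L (a, b)) sL ++ bindL (tL (a, b)) d2L)) = true := by
  decide +kernel

theorem I2 : ∀ a b, tB b = tgtA a →
    canc 9 ((-1, (a, b)) :: (bindL (d2L (a, b)) tL ++ bindL (uL (a, b)) d3L)) = true := by
  decide +kernel

theorem I3 : ∀ b, b ≠ oB (sB b) → canc 9 ((-1, b) :: bindL (d3L b) uL) = true := by
  decide +kernel

theorem d3_oB : ∀ i, d3L (oB i) = [] := by decide +kernel

/-- all terms of `sL` have the same source -/
theorem sL_src : ∀ b, ∀ t ∈ sL b, sB t.2.2 = sB b ∧ tgtA t.2.1 = tB b ∧ tB t.2.2 = srcA t.2.1 := by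
  decide +kernel

theorem sL_act : ∀ b, b ≠ eB (sB b) → ∃ t ∈ sL b, actT t.2.1 t.2.2 = some b := by
  decide +kernel

theorem tL_src : ∀ a b, ∀ t ∈ tL (a, b), sB t.2.2 = sB b ∧ srcA t.2.1 = tgtA a ∧ tB t.2.2 = tgtA t.2.1 ∧
    tB b = srcA a := by
  decide +kernel

theorem uL_src : ∀ a b, ∀ t ∈ uL (a, b), sB t.2 = sB b ∧ tB t.2 = srcA a ∧ tB b = tgtA a := by
  decide +kernel

end N0

end GZ
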