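import Pool.Agent.Lib_MP_a23b08_al.QP

/-!
# MP_a23b08_al, part N0 (base case): the Jacobian algebra of the torus quiver with potential

The Jacobian algebra of `torus k` has dimension `80`; its basis `Fin 80` consists of the `6` idempotents `eB i`,
the proper initial subpaths of the puncture cycles (lengths `1, …, 7` and `1, 2, 3`) and the `6` socle elements `oB i`.
`sB b`, `tB b` are the source and the target of `b`, `actT a b` is the product `a b` (`none` = zero), `wB b` is a word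
representing `b`.

`PRep Γ` is a representation given by a finite basis and partial maps on it, `PRep.dgm` the corresponding dg
module, concentrated in degree `0`. `Yd k i` is the projective `J e_i` (basis: all `b` with source `i`).
-/

set_option autoImplicit false

open CategoryTheory

namespace GZ

namespace N0

/-- source -/
def sB : Fin 80 → Fin 6 :=
    ![0, 0, 0, 0, 0, 0, 0, 0, 0, 0, 0, 0, 0, 0, 0, 0, 1, 1, 1, 1, 1, 1, 1, 1, 1, 1, 1, 1, 1, 1,
    1, 1, 2, 2, 2, 2, 2, 2, 2, 2, 2, 2, 2, 2, 3, 3, 3, 3, 3, 3, 3, 3, 3, 3, 3, 3, 4, 4, 4, 4, 4,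
    4, 4, 4, 4, 4, 4, 4, 5, 5, 5, 5, 5, 5, 5, 5, 5, 5, 5, 5]

/-- target -/
def tB : Fin 80 → Fin 6 :=
    ![0, 2, 1, 3, 0, 5, 1, 4, 5, 1, 4, 0, 2, 1, 3, 0, 1, 4, 0, 2, 1, 3, 0, 5, 3, 0, 5, 1, 4, 0,
    2, 1, 2, 3, 5, 4, 1, 3, 0, 5, 1, 4, 0, 2, 3, 0, 5, 1, 4, 0, 2, 1, 5, 4, 2, 3, 4, 2, 3, 5, 0,
    2, 1, 3, 0, 5, 1, 4, 5, 4, 2, 3, 1, 4, 0, 2, 1, 3, 0, 5]

/-- table of the action of the arrows, `80` means zero -/
def actN : List (List ℕ) := [
    [1, 80, 80, 80, 80, 80, 80, 80, 80, 80, 80, 12, 80, 80, 80, 80, 80, 80, 19, 80, 80, 80, 80,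
    80, 80, 80, 80, 80, 80, 30, 80, 80, 80, 80, 80, 80, 80, 80, 80, 80, 80, 80, 43, 80, 80, 54,
    80, 80, 80, 50, 80, 80, 80, 80, 80, 80, 80, 80, 80, 80, 61, 80, 80, 80, 80, 80, 80, 80, 80,
    80, 80, 80, 80, 80, 75, 80, 80, 80, 80, 80],
    [80, 14, 80, 80, 80, 80, 80, 80, 80, 80, 80, 80, 80, 80, 80, 80, 80, 80, 80, 80, 80, 80, 80,
    80, 80, 80, 80, 80, 80, 80, 80, 80, 33, 80, 80, 80, 80, 80, 80, 80, 80, 80, 80, 80, 80, 80,
    80, 80, 80, 80, 80, 80, 80, 80, 55, 80, 80, 58, 80, 80, 80, 80, 80, 80, 80, 80, 80, 80, 80,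
    80, 71, 80, 80, 80, 80, 80, 80, 80, 80, 80],
    [80, 80, 80, 4, 80, 80, 80, 80, 80, 80, 80, 80, 80, 80, 15, 80, 80, 80, 80, 80, 80, 22, 80,
    80, 25, 80, 80, 80, 80, 80, 80, 80, 80, 42, 80, 80, 80, 38, 80, 80, 80, 80, 80, 80, 45, 80,
    80, 80, 80, 80, 80, 80, 80, 80, 80, 80, 80, 80, 80, 80, 80, 80, 80, 64, 80, 80, 80, 80, 80,
    80, 80, 80, 80, 80, 80, 80, 80, 78, 80, 80],
    [80, 80, 80, 80, 80, 80, 7, 80, 80, 10, 80, 80, 80, 80, 80, 80, 17, 80, 80, 80, 80, 80, 80,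
    80, 80, 80, 80, 28, 80, 80, 80, 80, 80, 80, 80, 80, 35, 80, 80, 80, 41, 80, 80, 80, 80, 80,
    80, 48, 80, 80, 80, 80, 80, 80, 80, 80, 80, 80, 80, 80, 80, 80, 80, 80, 80, 80, 67, 80, 80,
    80, 80, 80, 73, 80, 80, 80, 80, 80, 80, 80],
    [80, 80, 80, 80, 80, 80, 80, 80, 80, 80, 80, 80, 80, 80, 80, 80, 80, 30, 80, 80, 80, 80, 80,
    80, 80, 80, 80, 80, 80, 80, 80, 80, 80, 80, 80, 43, 80, 80, 80, 80, 80, 80, 80, 80, 80, 80,
    80, 80, 80, 80, 80, 80, 80, 54, 80, 80, 57, 80, 80, 80, 80, 80, 80, 80, 80, 80, 80, 80, 80,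
    70, 80, 80, 80, 80, 80, 80, 80, 80, 80, 80],
    [80, 2, 80, 80, 80, 80, 80, 80, 80, 80, 80, 80, 13, 80, 80, 80, 80, 80, 80, 20, 80, 80, 80,
    80, 80, 80, 80, 80, 80, 80, 31, 80, 36, 80, 80, 80, 80, 80, 80, 80, 80, 80, 80, 80, 80, 80,
    80, 80, 80, 80, 51, 80, 80, 80, 80, 80, 80, 66, 80, 80, 80, 62, 80, 80, 80, 80, 80, 80, 80,
    80, 80, 80, 80, 80, 80, 76, 80, 80, 80, 80],
    [8, 80, 80, 80, 5, 80, 80, 80, 80, 80, 80, 80, 80, 80, 80, 80, 80, 80, 80, 80, 80, 80, 23,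
    80, 80, 26, 80, 80, 80, 80, 80, 80, 80, 80, 80, 80, 80, 80, 39, 80, 80, 80, 80, 80, 80, 46,
    80, 80, 80, 80, 80, 80, 80, 80, 80, 80, 80, 80, 80, 80, 59, 80, 80, 80, 65, 80, 80, 80, 80,
    80, 80, 80, 80, 80, 80, 80, 80, 80, 79, 80],
    [80, 80, 80, 80, 80, 80, 80, 80, 7, 80, 80, 80, 80, 80, 80, 80, 80, 80, 80, 80, 80, 80, 80,
    80, 80, 80, 80, 80, 80, 80, 80, 80, 80, 80, 35, 80, 80, 80, 80, 80, 80, 80, 80, 80, 80, 80,
    80, 80, 80, 80, 80, 80, 53, 80, 80, 80, 80, 80, 80, 67, 80, 80, 80, 80, 80, 80, 80, 80, 69,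
    80, 80, 80, 80, 80, 80, 80, 80, 80, 80, 80],
    [80, 80, 80, 80, 80, 80, 80, 15, 80, 80, 11, 80, 80, 80, 80, 80, 80, 18, 80, 80, 80, 80, 80,
    80, 80, 80, 80, 80, 29, 80, 80, 80, 80, 80, 80, 80, 80, 80, 80, 80, 80, 42, 80, 80, 80, 80,
    80, 80, 49, 80, 80, 80, 80, 80, 80, 80, 60, 80, 80, 80, 80, 80, 80, 80, 80, 80, 80, 80, 80,
    78, 80, 80, 80, 74, 80, 80, 80, 80, 80, 80],
    [80, 80, 3, 80, 80, 80, 80, 80, 80, 80, 80, 80, 80, 14, 80, 80, 24, 80, 80, 80, 21, 80, 80,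
    80, 80, 80, 80, 80, 80, 80, 80, 80, 80, 80, 80, 80, 37, 80, 80, 80, 80, 80, 80, 80, 80, 80,
    80, 80, 80, 80, 80, 55, 80, 80, 80, 80, 80, 80, 80, 80, 80, 80, 63, 80, 80, 80, 80, 80, 80,
    80, 80, 80, 71, 80, 80, 80, 77, 80, 80, 80],
    [80, 80, 80, 80, 80, 80, 80, 80, 80, 80, 80, 80, 80, 80, 80, 80, 80, 80, 80, 80, 80, 80, 80,
    80, 23, 80, 80, 80, 80, 80, 80, 80, 80, 34, 80, 80, 80, 80, 80, 80, 80, 80, 80, 80, 52, 80,
    80, 80, 80, 80, 80, 80, 80, 80, 80, 80, 80, 80, 59, 80, 80, 80, 80, 80, 80, 80, 80, 80, 80,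
    80, 80, 79, 80, 80, 80, 80, 80, 80, 80, 80],
    [80, 80, 80, 80, 80, 6, 80, 80, 9, 80, 80, 80, 80, 80, 80, 80, 80, 80, 80, 80, 80, 80, 80,
    31, 80, 80, 27, 80, 80, 80, 80, 80, 80, 80, 80, 80, 80, 80, 80, 40, 80, 80, 80, 80, 80, 80,
    47, 80, 80, 80, 80, 80, 51, 80, 80, 80, 80, 80, 80, 80, 80, 80, 80, 80, 80, 66, 80, 80, 72,
    80, 80, 80, 80, 80, 80, 80, 80, 80, 80, 80]]

/-- the product of an arrow and a basis element, `none` means zero -/
def actT (a : Fin 12) (b : Fin 80) : Option (Fin 80) :=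
  if h : (actN.getD a []).getD b 80 < 80 then some ⟨(actN.getD a []).getD b 80, h⟩ else none

/-- the idempotents -/
def eB : Fin 6 → Fin 80 := ![0, 16, 32, 44, 56, 68]

/-- the socle elements -/
def oB : Fin 6 → Fin 80 := ![15, 31, 43, 55, 67, 79]

/-- a word for each basis element -/
def wB : Fin 80 → List (Fin 12) :=
    ![[], [0], [5, 0], [9, 5, 0], [2, 9, 5, 0], [6, 2, 9, 5, 0], [11, 6, 2, 9, 5, 0], [3, 11, 6,
    2, 9, 5, 0], [6], [11, 6], [3, 11, 6], [8, 3, 11, 6], [0, 8, 3, 11, 6], [5, 0, 8, 3, 11, 6],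
    [9, 5, 0, 8, 3, 11, 6], [8, 3, 11, 6, 2, 9, 5, 0], [], [3], [8, 3], [0, 8, 3], [5, 0, 8, 3],
    [9, 5, 0, 8, 3], [2, 9, 5, 0, 8, 3], [6, 2, 9, 5, 0, 8, 3], [9], [2, 9], [6, 2, 9], [11, 6,
    2, 9], [3, 11, 6, 2, 9], [8, 3, 11, 6, 2, 9], [0, 8, 3, 11, 6, 2, 9], [11, 6, 2, 9, 5, 0, 8,
    3], [], [1], [10, 1], [7, 10, 1], [5], [9, 5], [2, 9, 5], [6, 2, 9, 5], [11, 6, 2, 9, 5], [3,
    11, 6, 2, 9, 5], [8, 3, 11, 6, 2, 9, 5], [4, 7, 10, 1], [], [2], [6, 2], [11, 6, 2], [3, 11,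
    6, 2], [8, 3, 11, 6, 2], [0, 8, 3, 11, 6, 2], [5, 0, 8, 3, 11, 6, 2], [10], [7, 10], [4, 7,
    10], [9, 5, 0, 8, 3, 11, 6, 2], [], [4], [1, 4], [10, 1, 4], [8], [0, 8], [5, 0, 8], [9, 5,
    0, 8], [2, 9, 5, 0, 8], [6, 2, 9, 5, 0, 8], [11, 6, 2, 9, 5, 0, 8], [7, 10, 1, 4], [], [7],
    [4, 7], [1, 4, 7], [11], [3, 11], [8, 3, 11], [0, 8, 3, 11], [5, 0, 8, 3, 11], [9, 5, 0, 8,
    3, 11], [2, 9, 5, 0, 8, 3, 11], [10, 1, 4, 7]]

/-- source of the arrows of the torus quiver -/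
def srcA : Fin 12 → Fin 6 := ![0, 2, 3, 1, 4, 2, 0, 5, 4, 1, 3, 5]

/-- target of the arrows of the torus quiver -/
def tgtA : Fin 12 → Fin 6 := ![2, 3, 0, 4, 2, 1, 5, 4, 0, 3, 5, 1]

/-- the first term of the cyclic derivative -/
def w1 : Fin 12 → List (Fin 12) :=
    ![[2, 1], [0, 2], [1, 0], [5, 4], [3, 5], [4, 3], [8, 7], [6, 8], [7, 6], [11, 10], [9, 11],
    [10, 9]]

/-- the second term of the cyclic derivative -/
def w2 : Fin 12 → List (Fin 12) :=
    ![[8, 3, 11, 6, 2, 9, 5], [4, 7, 10], [9, 5, 0, 8, 3, 11, 6], [11, 6, 2, 9, 5, 0, 8], [7, 10,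
    1], [0, 8, 3, 11, 6, 2, 9], [2, 9, 5, 0, 8, 3, 11], [10, 1, 4], [3, 11, 6, 2, 9, 5, 0], [5,
    0, 8, 3, 11, 6, 2], [1, 4, 7], [6, 2, 9, 5, 0, 8, 3]]

/-- the action of a word on the basis -/
def actWT {A X : Type} (act : A → X → Option X) : List A → X → Option X
  | [], b => some b
  | a :: w, b => (actWT act w b).bind (act a)

theorem actT_src : ∀ a b, ∀ b' ∈ actT a b, tB b = srcA a ∧ tB b' = tgtA a ∧ sB b' = sB b := by
  decide +kernel

theorem actT_rel : ∀ a b, actWT actT (w1 a) b = actWT actT (w2 a) b := by decide +kernel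

theorem wB_act : ∀ b, actWT actT (wB b) (eB (sB b)) = some b := by decide +kernel

theorem sB_eB : ∀ i, sB (eB i) = i ∧ tB (eB i) = i := by decide +kernel

theorem sB_oB : ∀ i, sB (oB i) = i ∧ tB (oB i) = i := by decide +kernel

theorem actT_oB : ∀ a i, actT a (oB i) = none := by decide +kernel

theorem actT_ne_eB : ∀ a b, ∀ b' ∈ actT a b, ∀ i, b' ≠ eB i := by decide +kernel

end N0

section prep

variable {k : Type} [Field k]

/-- the basis vector of a partial element -/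
noncomputable def osingle {X : Type} (o : Option X) : X →₀ k := o.elim 0 fun x => Finsupp.single x 1

@[simp] lemma osingle_none {X : Type} : osingle (k := k) (none : Option X) = 0 := rfl
@[simp] lemma osingle_some {X : Type} (x : X) : osingle (k := k) (some x) = Finsupp.single x 1 := rfl

/-- the linear map given by a partial map of the bases -/
noncomputable def pmap {X Y : Type} (f : X → Option Y) : (X →₀ k) →ₗ[k] (Y →₀ k) :=
  Finsupp.linearCombination k fun x => osingle (f x)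

@[simp] lemma pmap_single {X Y : Type} (f : X → Option Y) (x : X) :
    pmap (k := k) f (Finsupp.single x 1) = osingle (f x) := by simp [pmap]

lemma pmap_osingle {X Y : Type} (f : X → Option Y) (o : Option X) :
    pmap (k := k) f (osingle o) = osingle (o.bind f) := by
  cases o <;> simp

/-- a representation given by partial maps on a basis -/
structure PRep (Γ : QF k) where
  /-- the basis -/
  X : Type
  /-- the vertex of a basis element -/
  v : X → Γ.V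
  /-- the action -/
  act : Γ.A → X → Option X
  act_src : ∀ a x, ∀ y ∈ act a x, v x = Γ.src a ∧ v y = Γ.tgt a ∧ Γ.deg a = 0
  rel : ∀ a x, evP (fun b => pmap (k := k) (act b)) (Γ.diff a) (Finsupp.single x 1) = 0

lemma evW_pmap {A X : Type} (act : A → X → Option X) (w : List A) (x : X) :
    evW (fun b => pmap (k := k) (act b)) w (Finsupp.single x 1) = osingle (N0.actWT act w x) := by
  induction w with
  | nil => rfl
  | cons a w ih => rw [evW_cons, ih, pmap_osingle]; rfl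

/-- membership is checked on the basis -/
lemma supp_map {X N : Type} [AddCommGroup N] [Module k N] {s : Set X} {x : X →₀ k}
    (hx : x ∈ Finsupp.supported k k s) (φ : (X →₀ k) →ₗ[k] N) (P : Submodule k N)
    (h : ∀ y ∈ s, φ (Finsupp.single y 1) ∈ P) : φ x ∈ P := by
  rw [Finsupp.supported_eq_span_single] at hx
  refine Submodule.span_induction (p := fun z _ => φ z ∈ P) ?_ (by simp) ?_ ?_ hx
  · rintro _ ⟨y, hy, rfl⟩
    exact h y hy
  · intro a b _ _ ha hb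
    rw [map_add]
    exact add_mem ha hb
  · intro c a _ ha
    rw [map_smul]
    exact P.smul_mem c ha

/-- the dg module of a representation, concentrated in degree `0` -/
noncomputable def PRep.dgm {Γ : QF k} (R : PRep Γ) : DGM Γ where
  M := R.X →₀ k
  gr v n := Finsupp.supported k k {x | R.v x = v ∧ n = 0}
  indep := by
    intro p
    refine Disjoint.mono_right (c := Finsupp.supported k k {x | (R.v x, (0 : ℤ)) ≠ p}) ?_ ?_
    · refine iSup₂_le fun q hq => Finsupp.supported_mono ?_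
      rintro x ⟨h3, h4⟩ h
      exact hq ((Prod.ext h3 h4.symm : (R.v x, (0 : ℤ)) = q).symm.trans h)
    · refine Finsupp.disjoint_supported_supported (Set.disjoint_left.2 ?_)
      rintro x ⟨h1, h2⟩ hx
      exact hx (Prod.ext h1 h2.symm)
  iSup_eq_top := by
    rw [← Finsupp.supported_iUnion, eq_top_iff]
    intro x _
    rw [Finsupp.mem_supported]
    intro y _
    exact Set.mem_iUnion.2 ⟨(R.v y, 0), rfl, rfl⟩
  d := 0
  act a := pmap (R.act a)
  d_mem := by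
    intro v p q x _ _
    exact zero_mem _
  d_d := by simp
  act_mem := by
    intro a p q x hpq hx
    refine supp_map hx (pmap (R.act a)) _ ?_
    rintro y ⟨h1, h2⟩
    rw [pmap_single]
    rcases h : R.act a y with _ | z
    · exact zero_mem _
    · obtain ⟨h3, h4, h5⟩ := R.act_src a y z h
      exact Finsupp.single_mem_supported k _ ⟨h4, by rw [← hpq, h5, h2]; rfl⟩
  act_zero := by
    intro a v p x hv hx
    have : pmap (k := k) (R.act a) x ∈ (⊥ : Submodule k (R.X →₀ k)) := by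
      refine supp_map hx (pmap (R.act a)) _ ?_
      rintro y ⟨h1, h2⟩
      rw [pmap_single]
      rcases h : R.act a y with _ | z
      · exact zero_mem _
      · obtain ⟨h3, h4, h5⟩ := R.act_src a y z h
        exact absurd (h1.symm.trans h3) hv
    exact this
  leibniz := by
    intro a x
    have h : evP (fun b => pmap (k := k) (R.act b)) (Γ.diff a) = 0 := by
      ext y : 2
      simpa using R.rel a y
    change (0 : R.X →₀ k) = evP (fun b => pmap (k := k) (R.act b)) (Γ.diff a) x +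
      sg k (Γ.deg a) • pmap (R.act a) (0 : R.X →₀ k)
    rw [h]
    simp

end prep

end GZ
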