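import Pool.Agent.Lib_MP_a23b08_n0.N0Ctr

/-!
# MP_a23b08_al, part N0: `Hⁿ Φ(Yd i, S_j)`

`finrank (HPhi (Yd k i) S m) = 1` if `i = j` and `m = 0` or `m = 3`, and `HPhi (Yd k i) S m = 0` otherwise, for
every dg module `S` which is simple at `j` (`IsSm j S`).
-/

set_option autoImplicit false

open CategoryTheory

namespace GZ

namespace N0

open DGM

section gen

variable {k : Type} [Field k] {Γ : QF k}

/-- `S` is the one-dimensional dg module at the vertex `j`, in degree `0`. -/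
structure IsSm (j : Γ.V) (S : DGM Γ) : Prop where
  gr_bot : ∀ v n, v ≠ j ∨ n ≠ 0 → ∀ x ∈ S.gr v n, x = 0
  d0 : S.d = 0
  act0 : ∀ a, S.act a = 0
  one : Module.finrank k S.M = 1

lemma IsSm.gr_top {j : Γ.V} {S : DGM Γ} (h : IsSm j S) : S.gr j 0 = ⊤ := by
  rw [eq_top_iff, ← S.iSup_eq_top]
  refine iSup_le fun p => ?_
  by_cases hp : p = (j, 0)
  · subst hp; exact le_rfl
  · intro x hx
    have : p.1 ≠ j ∨ p.2 ≠ 0 := by
      by_contra hc
      push Not at hc
      exact hp (Prod.ext hc.1 hc.2)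
    rw [h.gr_bot p.1 p.2 this x hx]
    exact zero_mem _

/-- A quotient `Z ⧸ B` with `Z ≤ B` is zero. -/
lemma finrank_quot_zero {E : Type} [AddCommGroup E] [Module k E] (Z B : Submodule k E) (h : Z ≤ B) :
    Module.finrank k (↥Z ⧸ B.comap Z.subtype) = 0 := by
  have : Subsingleton (↥Z ⧸ B.comap Z.subtype) := by
    rw [Submodule.Quotient.subsingleton_iff, eq_top_iff]
    rintro ⟨x, hx⟩ _
    exact h hx
  exact Module.finrank_zero_of_subsingleton

lemma finrank_quot_one {E : Type} [AddCommGroup E] [Module k E] (Z B : Submodule k E) (z : E) (hz : z ∈ Z)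
    (hb : z ∉ B) (h : ∀ x ∈ Z, ∃ c : k, x - c • z ∈ B) :
    Module.finrank k (↥Z ⧸ B.comap Z.subtype) = 1 := by
  refine finrank_eq_one (Submodule.Quotient.mk ⟨z, hz⟩) ?_ ?_
  · intro h0
    rw [Submodule.Quotient.mk_eq_zero] at h0
    exact hb h0
  · intro w
    obtain ⟨⟨x, hx⟩, rfl⟩ := Submodule.Quotient.mk_surjective _ w
    obtain ⟨c, hc⟩ := h x hx
    refine ⟨c, ?_⟩
    rw [← Submodule.Quotient.mk_smul, Submodule.Quotient.eq, ← Submodule.neg_mem_iff]
    simpa using hc

end gen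

variable (k : Type) [Field k]

/-- the dg algebra -/
noncomputable abbrev GT : QF k := ginz (torus k)

variable {k}

section

variable {i j : Fin 6} {S : DGM (GT k)}

/-- basis vector of `Yd k i` -/
noncomputable def bv {i : Fin 6} (b : BY i) : (Yd k i).M := (Finsupp.single b 1 : BY i →₀ k)

lemma bv_mem (b : BY i) : bv (k := k) b ∈ (Yd k i).gr (tB b.1) 0 :=
  Finsupp.single_mem_supported k _ ⟨rfl, rfl⟩

lemma ext_bv {N : Type} [AddCommGroup N] [Module k N] {φ ψ : (Yd k i).M →ₗ[k] N}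
    (h : ∀ b : BY i, φ (bv b) = ψ (bv b)) : φ = ψ := by
  have : (φ : (BY i →₀ k) →ₗ[k] N) = ψ :=
    Finsupp.lhom_ext' fun b => LinearMap.ext_ring (h b)
  exact this

lemma Yd_d : (Yd k i).d = 0 := rfl

/-- membership test for elements of the components -/
lemma gr_test {N : Type} [AddCommGroup N] [Module k N] (φ : (Yd k i).M →ₗ[k] N) (P : Submodule k N)
    {v : Fin 6} {p : ℤ} {x : (Yd k i).M} (hx : x ∈ (Yd k i).gr v p)
    (h : ∀ b : BY i, tB b.1 = v → p = 0 → φ (bv b) ∈ P) : φ x ∈ P :=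
  supp_map (k := k) (X := BY i) (s := {b | tB b.1 = v ∧ p = 0}) hx φ P fun y hy => h y hy.1 hy.2

/-- the vector of a partial basis element -/
noncomputable def ov {i : Fin 6} (o : Option (BY i)) : (Yd k i).M := (osingle o : BY i →₀ k)

@[simp] lemma ov_none : ov (k := k) (none : Option (BY i)) = 0 := rfl
@[simp] lemma ov_some (b : BY i) : ov (k := k) (some b) = bv b := rfl

lemma act_bv (a : Gen (Fin 6) (Fin 12)) (b : BY i) : (Yd k i).act a (bv b) = ov (actY i a b) :=
  pmap_single (k := k) (actY i a) b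

/-- The value of a linear map on a basis element of the algebra (zero if the source is not `i`). -/
noncomputable def val {N : Type} [AddCommGroup N] [Module k N] (φ : (Yd k i).M →ₗ[k] N) (b : Fin 80) : N :=
  φ (ov (res i b))

lemma val_eq {N : Type} [AddCommGroup N] [Module k N] (φ : (Yd k i).M →ₗ[k] N) (b : BY i) :
    val φ b.1 = φ (bv b) := by
  have : res i b.1 = some b := by
    simp [res, b.2]
  rw [val, this, ov_some]

lemma map_ov {N : Type} [AddCommGroup N] [Module k N] (φ : (Yd k i).M →ₗ[k] N) (o : Option (BY i)) :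
    φ (ov o) = ev (val φ) ((o.map Subtype.val).toList.map fun y => (1, y)) := by
  rcases o with _ | b
  · simp
  · simp [val_eq]

/-- A linear map on `Yd k i` given by its values on the basis. -/
noncomputable def mkL {N : Type} [AddCommGroup N] [Module k N] (F : Fin 80 → N) : (Yd k i).M →ₗ[k] N :=
  (Finsupp.linearCombination k fun b : BY i => F b.1 : (BY i →₀ k) →ₗ[k] N)

lemma mkL_bv {N : Type} [AddCommGroup N] [Module k N] (F : Fin 80 → N) (b : BY i) :
    mkL (k := k) (i := i) F (bv b) = F b.1 := by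
  have : (Finsupp.linearCombination k fun b : BY i => F b.1) (Finsupp.single b (1 : k)) = F b.1 := by
    simp
  exact this

lemma val_mkL {N : Type} [AddCommGroup N] [Module k N] (F : Fin 80 → N) (b : Fin 80) (hb : sB b = i) :
    val (mkL (k := k) (i := i) F) b = F b := by
  rw [show b = (⟨b, hb⟩ : BY i).1 from rfl, val_eq, mkL_bv]

lemma ev_congr {X N : Type} [AddCommGroup N] {F G : X → N} {l : List (ℤ × X)} (h : ∀ t ∈ l, F t.2 = G t.2) :
    ev F l = ev G l := by
  unfold ev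
  congr 1
  refine List.map_congr_left fun t ht => ?_
  rw [h t ht]

/-- the arrow `a` -/
def gA (k : Type) [Field k] (a : Fin 12) : (GT k).A := (Gen.arr a : Gen (Fin 6) (Fin 12))
/-- the arrow `a*` -/
def gS (k : Type) [Field k] (a : Fin 12) : (GT k).A := (Gen.star a : Gen (Fin 6) (Fin 12))
/-- the arrow `t_v` -/
def gL (k : Type) [Field k] (v : Fin 6) : (GT k).A := (Gen.loop v : Gen (Fin 6) (Fin 12))

lemma gA_cases {P : (GT k).A → Prop} (h1 : ∀ a, P (gA k a)) (h2 : ∀ a, P (gS k a)) (h3 : ∀ v, P (gL k v))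
    (x : (GT k).A) : P x := by
  have h : ∀ y : Gen (Fin 6) (Fin 12), P y := fun y => match y with
    | .arr a => h1 a
    | .star a => h2 a
    | .loop v => h3 v
  exact h x

lemma act_gA (a : Fin 12) (b : BY i) : (Yd k i).act (gA k a) (bv b) = ov (actY i (.arr a) b) :=
  act_bv (.arr a) b

lemma act_gS (a : Fin 12) : (Yd k i).act (gS k a) = 0 := by
  refine ext_bv fun b => ?_
  exact (act_bv (.star a) b).trans rfl

lemma act_gL (v : Fin 6) : (Yd k i).act (gL k v) = 0 := by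
  refine ext_bv fun b => ?_
  exact (act_bv (.loop v) b).trans rfl

lemma evW_arr (w : List (Fin 12)) (b : BY i) :
    evW (Yd k i).act (w.map (gA k)) (bv b) = ov (actWT (actY i) (w.map Gen.arr) b) :=
  evW_pmap (k := k) (actY i) (w.map Gen.arr) b

lemma diff_gA (a : Fin 12) : (GT k).diff (gA k a) = [] := rfl

lemma diff_gS (c : Fin 12) :
    (GT k).diff (gS k c) = [((1 : k), (w1 c).map (gA k)), (-1, (w2 c).map (gA k))] := gdiff_star k c

lemma derW_gA (hS : IsSm (Γ := GT k) j S) (m : ℤ) (D : (GT k).A → ((Yd k i).M →ₗ[k] S.M))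
    (a : Fin 12) (w : List (Fin 12)) (b : BY i) :
    derW (Γ := GT k) (X := Yd k i) (Y := S) m D (gA k a :: w.map (gA k)) (bv b) =
      ev (val (D (gA k a))) ((actWT actT w b.1).toList.map fun y => (1, y)) := by
  rw [derW_cons, hS.act0, LinearMap.zero_apply, smul_zero, add_zero, evW_arr, map_ov, actWT_actY]

/-- the derivation on the differential of `a*` -/
lemma derP_star (hS : IsSm (Γ := GT k) j S) (m : ℤ) (D : (GT k).A → ((Yd k i).M →ₗ[k] S.M))
    (c : Fin 12) (b : BY i) :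
    derP (Γ := GT k) (X := Yd k i) (Y := S) m D ((GT k).diff (gS k c)) (bv b) =
      ev (fun x : Fin 12 × Fin 80 => val (D (gA k x.1)) x.2) (d2L (c, b.1)) := by
  rw [diff_gS, derP_cons_apply, derP_cons_apply, derP_nil, w1_eq, w2_eq, List.map_cons, List.map_cons,
    derW_gA hS, derW_gA hS, d2L, ev_append]
  rcases actWT actT (r1 c) b.1 with _ | y <;> rcases actWT actT (r2 c) b.1 with _ | z <;>
    simp

lemma derP_map_apply {Γ : QF k} {X Y : DGM Γ} {I : Type} (m : ℤ) (D : Γ.A → (X.M →ₗ[k] Y.M)) (l : List I)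
    (f : I → k × List Γ.A) (x : X.M) :
    derP m D (l.map f) x = (l.map fun a => (f a).1 • derW m D (f a).2 x).sum := by
  induction l with
  | nil => rfl
  | cons a l ih => rw [List.map_cons, derP_cons_apply, ih, List.map_cons, List.sum_cons]

lemma derP_append_apply {Γ : QF k} {X Y : DGM Γ} (m : ℤ) (D : Γ.A → (X.M →ₗ[k] Y.M))
    (p q : List (k × List Γ.A)) (x : X.M) : derP m D (p ++ q) x = derP m D p x + derP m D q x := by
  induction p with
  | nil => simp
  | cons a l ih => rw [List.cons_append, derP_cons_apply, ih, derP_cons_apply, add_assoc]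

lemma diff_gL (v : Fin 6) : (GT k).diff (gL k v) =
    ((Finset.univ.filter fun a : Fin 12 => tgtA a = v).toList.map fun a => ((1 : k), [gA k a, gS k a])) ++
      (Finset.univ.filter fun a : Fin 12 => srcA a = v).toList.map fun a => (-1, [gS k a, gA k a]) := rfl

lemma actY_none (a : Fin 12) (b : BY i) (h : tB b.1 ≠ srcA a) : actY i (.arr a) b = none := by
  rcases h1 : actY i (.arr a) b with _ | y
  · rfl
  · exact absurd (actY_src i _ _ _ h1).1 h

lemma derP_loop (hS : IsSm (Γ := GT k) j S) (m : ℤ) (D : (GT k).A → ((Yd k i).M →ₗ[k] S.M))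
    (v : Fin 6) (b : BY i) :
    derP (Γ := GT k) (X := Yd k i) (Y := S) m D ((GT k).diff (gL k v)) (bv b) =
      if tB b.1 = v then - ev (fun x : Fin 12 × Fin 80 => val (D (gS k x.1)) x.2) (d3L b.1) else 0 := by
  rw [diff_gL, derP_append_apply, derP_map_apply, derP_map_apply]
  have h1 : ∀ a, derW (Γ := GT k) (X := Yd k i) (Y := S) m D [gA k a, gS k a] (bv b) = 0 := by
    intro a
    rw [derW_cons, hS.act0, LinearMap.zero_apply, smul_zero, add_zero, evW_cons, act_gS,
      LinearMap.zero_apply, map_zero]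
  have h2 : ∀ a, derW (Γ := GT k) (X := Yd k i) (Y := S) m D [gS k a, gA k a] (bv b) =
      D (gS k a) (ov (actY i (.arr a) b)) := by
    intro a
    rw [derW_cons, hS.act0, LinearMap.zero_apply, smul_zero, add_zero, evW_cons, evW_nil,
      LinearMap.id_apply, act_gA]
  have h3 : ev (fun x : Fin 12 × Fin 80 => val (D (gS k x.1)) x.2) (d3L b.1) =
      ∑ a : Fin 12, D (gS k a) (ov (actY i (.arr a) b)) := by
    rw [Fin.sum_univ_def, d3L]
    induction (List.finRange 12) with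
    | nil => rfl
    | cons a l ih =>
      rw [List.flatMap_cons, ev_append, ih, List.map_cons, List.sum_cons]
      congr 1
      rw [map_ov, actY_val]
      rcases actT a b.1 with _ | y <;> simp
  simp only [h1, h2, smul_zero, List.map_const', List.sum_replicate, zero_add, neg_smul, one_smul]
  rw [Finset.sum_map_toList, Finset.sum_filter, h3]
  by_cases hv : tB b.1 = v
  · rw [if_pos hv, ← Finset.sum_neg_distrib]
    refine Finset.sum_congr rfl fun a _ => ?_
    split_ifs with ha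
    · rfl
    · rw [actY_none a b (fun h => ha (h.symm.trans hv)), ov_none, map_zero, neg_zero]
  · rw [if_neg hv]
    refine Finset.sum_eq_zero fun a _ => ?_
    split_ifs with ha
    · rw [actY_none a b (fun h => hv (h.trans ha)), ov_none, map_zero, neg_zero]
    · rfl

lemma ev_mem {X N : Type} [AddCommGroup N] [Module k N] (P : Submodule k N) {F : X → N}
    {l : List (ℤ × X)} (h : ∀ t ∈ l, F t.2 ∈ P) : ev F l ∈ P := by
  induction l with
  | nil => exact zero_mem _
  | cons t l ih =>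
    rw [ev_cons]
    exact add_mem (zsmul_mem (h t List.mem_cons_self) _) (ih fun s hs => h s (List.mem_cons_of_mem _ hs))

lemma ev_zero {X N : Type} [AddCommGroup N] (l : List (ℤ × X)) : ev (fun _ => (0 : N)) l = 0 := by
  induction l with
  | nil => rfl
  | cons t l ih => rw [ev_cons, ih]; simp

lemma val_zero {N : Type} [AddCommGroup N] [Module k N] (b : Fin 80) :
    val (0 : (Yd k i).M →ₗ[k] N) b = 0 := rfl

lemma HomV_eq_zero (hS : IsSm (Γ := GT k) j S) {n : ℤ} (hn : n ≠ 0) {h : (Yd k i).M →ₗ[k] S.M}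
    (hh : h ∈ HomV (Yd k i) S n) : h = 0 := by
  refine ext_bv fun b => ?_
  exact hS.gr_bot _ _ (Or.inr hn) _ (hh (tB b.1) 0 n (bv b) (by omega) (bv_mem b))

lemma HomA_bv (a : (GT k).A) {n : ℤ} {D : (Yd k i).M →ₗ[k] S.M} (hD : D ∈ HomA a (Yd k i) S n)
    (b : BY i) : D (bv b) ∈ S.gr ((GT k).tgt a) n := by
  by_cases hb : tB b.1 = (GT k).src a
  · refine hD.1 0 n (bv b) (by omega) ?_
    rw [← hb]
    exact bv_mem b
  · rw [hD.2 (tB b.1) 0 (bv b) hb (bv_mem b)]
    exact zero_mem _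

lemma HomA_val (a : (GT k).A) {n : ℤ} {D : (Yd k i).M →ₗ[k] S.M} (hD : D ∈ HomA a (Yd k i) S n)
    (b : Fin 80) : val D b ∈ S.gr ((GT k).tgt a) n := by
  rw [val]
  rcases res i b with _ | y
  · rw [ov_none, map_zero]
    exact zero_mem _
  · exact HomA_bv a hD y

lemma HomA_eq_zero (hS : IsSm (Γ := GT k) j S) (a : (GT k).A) {n : ℤ} (hn : n ≠ 0)
    {D : (Yd k i).M →ₗ[k] S.M} (hD : D ∈ HomA a (Yd k i) S n) : D = 0 :=
  ext_bv fun b => hS.gr_bot _ _ (Or.inr hn) _ (HomA_bv a hD b)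

lemma mkL_mem_HomA {a : (GT k).A} {n : ℤ} (hn : n = 0) {F : Fin 80 → S.M}
    (h1 : ∀ b, sB b = i → tB b = (GT k).src a → F b ∈ S.gr ((GT k).tgt a) 0)
    (h2 : ∀ b, sB b = i → tB b ≠ (GT k).src a → F b = 0) :
    mkL (k := k) (i := i) F ∈ HomA a (Yd k i) S n := by
  subst hn
  refine ⟨fun p q x hpq hx => ?_, fun v p x hv hx => ?_⟩
  · refine gr_test _ _ hx fun b hb hp => ?_
    rw [mkL_bv, ← hpq, hp]
    exact h1 b.1 b.2 hb
  · have : mkL (k := k) (i := i) F x ∈ (⊥ : Submodule k S.M) := by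
      refine gr_test _ _ hx fun b hb hp => ?_
      rw [mkL_bv, h2 b.1 b.2 (fun h => hv (hb.symm.trans h))]
      exact zero_mem _
    exact this

lemma mem_BPhi {Γ : QF k} {X Y : DGM Γ} {n m : ℤ} (h : m + 1 = n) {φ ψ : Amb X Y} (hψ : ψ ∈ Phi X Y m)
    (e : dPhi m ψ = φ) : φ ∈ BPhi X Y n := by
  obtain rfl : m = n - 1 := by omega
  exact ⟨ψ, hψ, e⟩

/-- a family of maps indexed by the arrows -/
def mkD {N : Type} (f g : Fin 12 → N) (l : Fin 6 → N) : (GT k).A → N := fun y : Gen (Fin 6) (Fin 12) =>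
  match y with
  | .arr a => f a
  | .star a => g a
  | .loop v => l v

@[simp] lemma mkD_gA {N : Type} (f g : Fin 12 → N) (l : Fin 6 → N) (a : Fin 12) :
    mkD (k := k) f g l (gA k a) = f a := rfl
@[simp] lemma mkD_gS {N : Type} (f g : Fin 12 → N) (l : Fin 6 → N) (a : Fin 12) :
    mkD (k := k) f g l (gS k a) = g a := rfl
@[simp] lemma mkD_gL {N : Type} (f g : Fin 12 → N) (l : Fin 6 → N) (a : Fin 6) :
    mkD (k := k) f g l (gL k a) = l a := rfl

lemma dPhi_fst (hS : IsSm (Γ := GT k) j S) (n : ℤ) (φ : Amb (Yd k i) S) : (dPhi n φ).1 = 0 := by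
  refine LinearMap.ext fun x => ?_
  rw [dPhi_apply, dH_apply, hS.d0, Yd_d]
  simp

lemma dPhi_snd (hS : IsSm (Γ := GT k) j S) (n : ℤ) (φ : Amb (Yd k i) S) (a : (GT k).A) (x : (Yd k i).M) :
    (dPhi n φ).2 a x = φ.1 ((Yd k i).act a x) + sg k (n - 1) • derP (n - 1) φ.2 ((GT k).diff a) x := by
  have h : (dPhi n φ).2 a x = inn n φ.1 a x - bd (n - 1) φ.2 a x := rfl
  rw [h, inn_apply, bd_apply, hS.d0, hS.act0, Yd_d]
  simp

lemma dPhi_gA (hS : IsSm (Γ := GT k) j S) (n : ℤ) (φ : Amb (Yd k i) S) (a : Fin 12) (b : BY i) :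
    (dPhi n φ).2 (gA k a) (bv b) = φ.1 (ov (actY i (.arr a) b)) := by
  rw [dPhi_snd hS, act_gA, diff_gA, derP_nil]
  simp

lemma dPhi_gS (hS : IsSm (Γ := GT k) j S) (n : ℤ) (φ : Amb (Yd k i) S) (c : Fin 12) (b : BY i) :
    (dPhi n φ).2 (gS k c) (bv b) =
      sg k (n - 1) • ev (fun x : Fin 12 × Fin 80 => val (φ.2 (gA k x.1)) x.2) (d2L (c, b.1)) := by
  rw [dPhi_snd hS, act_gS, derP_star hS]
  simp

lemma dPhi_gL (hS : IsSm (Γ := GT k) j S) (n : ℤ) (φ : Amb (Yd k i) S) (v : Fin 6) (b : BY i) :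
    (dPhi n φ).2 (gL k v) (bv b) = sg k (n - 1) • if tB b.1 = v then
      - ev (fun x : Fin 12 × Fin 80 => val (φ.2 (gS k x.1)) x.2) (d3L b.1) else 0 := by
  rw [dPhi_snd hS, act_gL, derP_loop hS]
  simp

lemma ev_val_zero (D : Fin 12 → ((Yd k i).M →ₗ[k] S.M)) (h : ∀ c, D c = 0) (l : List (ℤ × (Fin 12 × Fin 80))) :
    ev (fun x : Fin 12 × Fin 80 => val (D x.1) x.2) l = 0 := by
  rw [← ev_zero (N := S.M) l]
  refine ev_congr fun t _ => ?_
  rw [h, val_zero]

lemma loop_zero (D : Fin 12 → ((Yd k i).M →ₗ[k] S.M)) (h : ∀ c, D c = 0) (l : List (ℤ × (Fin 12 × Fin 80)))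
    (c : k) (P : Prop) [Decidable P] :
    (c • if P then - ev (fun x : Fin 12 × Fin 80 => val (D x.1) x.2) l else 0) = 0 := by
  rw [ev_val_zero D h l]
  simp

theorem d2L_nil : ∀ c b, tB b ≠ tgtA c → d2L (c, b) = [] := by decide +kernel

theorem d1L_src : ∀ a b, ∀ t ∈ d1L (a, b), sB t.2 = sB b := by decide +kernel

theorem d2L_src : ∀ c b, ∀ t ∈ d2L (c, b), sB t.2.2 = sB b := by decide +kernel

theorem d3L_src : ∀ b, ∀ t ∈ d3L b, sB t.2.2 = sB b := by decide +kernel

/-- extension by zero in the degrees other than `1` -/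
lemma dPhi_ext (hS : IsSm (Γ := GT k) j S) {n : ℤ} {ψ φ : Amb (Yd k i) S} (h0 : φ.1 = 0)
    (h1 : ∀ a (b : BY i), (dPhi n ψ).2 (gA k a) (bv b) = φ.2 (gA k a) (bv b))
    (h2 : ∀ a (b : BY i), (dPhi n ψ).2 (gS k a) (bv b) = φ.2 (gS k a) (bv b))
    (h3 : ∀ v (b : BY i), (dPhi n ψ).2 (gL k v) (bv b) = φ.2 (gL k v) (bv b)) : dPhi n ψ = φ := by
  refine Prod.ext ((dPhi_fst hS n ψ).trans h0.symm) (funext fun a => ?_)
  exact gA_cases (P := fun a => (dPhi n ψ).2 a = φ.2 a) (fun a => ext_bv (h1 a)) (fun a => ext_bv (h2 a))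
    (fun v => ext_bv (h3 v)) a

/-- `H¹ = 0` -/
theorem ext1 (hS : IsSm (Γ := GT k) j S) : ZPhi (Yd k i) S 1 ≤ BPhi (Yd k i) S 1 := by
  rintro φ ⟨hφ, hd⟩
  have hd' : dPhi 1 φ = 0 := hd
  have h0 : φ.1 = 0 := HomV_eq_zero hS one_ne_zero hφ.1
  set F : Fin 12 × Fin 80 → S.M := fun x => val (φ.2 (gA k x.1)) x.2 with hF
  have R : ∀ c (b : BY i), ev F (d2L (c, b.1)) = 0 := by
    intro c b
    have := dPhi_gS hS 1 φ c b
    rw [hd', sub_self, sg_zero, one_smul] at this
    exact this.symm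
  have R' : ∀ x : Fin 12 × Fin 80, sB x.2 = i → ev F (d2L x) = 0 := fun x hx => R x.1 ⟨x.2, hx⟩
  have hmem : ∀ a, φ.2 (gA k a) ∈ HomA (gA k a) (Yd k i) S 0 := fun a => hφ.2 (gA k a)
  refine mem_BPhi (m := 0) (ψ := (mkL fun b => ev F (sL b), 0)) rfl ⟨?_, fun a => zero_mem _⟩ ?_
  · intro v p q x hpq hx
    refine gr_test _ _ hx fun b hb hp => ?_
    rw [mkL_bv, ← hpq, hp, ← hb]
    refine ev_mem _ fun t ht => ?_
    have h1 := HomA_val (gA k t.2.1) (hmem t.2.1) t.2.2
    have h2 : (GT k).tgt (gA k t.2.1) = tB b.1 := (sL_src b.1 t ht).2.1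
    rw [h2] at h1
    exact h1
  · refine dPhi_ext hS h0 (fun a b => ?_) (fun a b => ?_) fun v b => ?_
    · rw [dPhi_gA hS]
      by_cases ht : tB b.1 = srcA a
      · have e1 : mkL (k := k) (i := i) (fun b => ev F (sL b)) (ov (actY i (.arr a) b)) =
            ev (fun y => ev F (sL y)) (d1L (a, b.1)) := by
          rw [map_ov, actY_val]
          refine ev_congr fun t ht => ?_
          exact val_mkL _ _ ((d1L_src a b.1 t ht).trans b.2)
        have e2 := ev_canc F 9 _ (I1 a b.1 ht)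
        rw [ev_cons, ev_append, ev_bindL, ev_bindL] at e2
        have e3 : ev (fun x => ev F (d2L x)) (tL (a, b.1)) = 0 := by
          rw [← ev_zero (N := S.M) (tL (a, b.1))]
          exact ev_congr fun t ht => R' t.2 (((tL_src a b.1 t ht).1).trans b.2)
        rw [e3, add_zero, ← e1] at e2
        have e4 : F (a, b.1) = φ.2 (gA k a) (bv b) := val_eq _ b
        rw [← e4]
        change mkL (k := k) (i := i) (fun b => ev F (sL b)) (ov (actY i (.arr a) b)) = _
        have e5 : (-1 : ℤ) • F (a, b.1) = - F (a, b.1) := by simp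
        rw [e5] at e2
        exact (neg_add_eq_zero.1 e2).symm
      · rw [actY_none a b ht, ov_none, map_zero]
        exact ((hmem a).2 (tB b.1) 0 (bv b) ht (bv_mem b)).symm
    · rw [dPhi_gS hS, HomA_eq_zero hS (gS k a) (n := 1 - 1 + -1) (by norm_num) (hφ.2 (gS k a))]
      change _ • ev (fun x : Fin 12 × Fin 80 => (0 : S.M)) _ = 0
      rw [ev_zero, smul_zero]
    · rw [dPhi_gL hS, HomA_eq_zero hS (gL k v) (n := 1 - 1 + -2) (by norm_num) (hφ.2 (gL k v))]
      exact loop_zero (fun _ => 0) (fun _ => rfl) _ _ _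

/-- `H² = 0` -/
theorem ext2 (hS : IsSm (Γ := GT k) j S) : ZPhi (Yd k i) S 2 ≤ BPhi (Yd k i) S 2 := by
  rintro φ ⟨hφ, hd⟩
  have hd' : dPhi 2 φ = 0 := hd
  have h0 : φ.1 = 0 := HomV_eq_zero hS two_ne_zero hφ.1
  set F : Fin 12 × Fin 80 → S.M := fun x => val (φ.2 (gS k x.1)) x.2 with hF
  have R : ∀ b : BY i, ev F (d3L b.1) = 0 := by
    intro b
    have := dPhi_gL hS 2 φ (tB b.1) b
    rw [hd', if_pos rfl] at this
    have h1 : sg k ((2 : ℤ) - 1) = -1 := by norm_num
    rw [h1, neg_smul, one_smul, neg_neg] at this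
    exact this.symm
  have R' : ∀ x : Fin 80, sB x = i → ev F (d3L x) = 0 := fun x hx => R ⟨x, hx⟩
  have hmem : ∀ a, φ.2 (gS k a) ∈ HomA (gS k a) (Yd k i) S 0 := by
    intro a
    have h := hφ.2 (gS k a)
    rwa [show (2 : ℤ) - 1 + (GT k).deg (gS k a) = 0 from rfl] at h
  have hE : ∀ a, mkL (k := k) (i := i) (fun b => ev F (tL (a, b))) ∈
      HomA (gA k a) (Yd k i) S (1 - 1 + (GT k).deg (gA k a)) := by
    intro a
    refine mkL_mem_HomA rfl (fun b _ _ => ?_) fun b _ hb => ?_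
    · refine ev_mem _ fun t ht => ?_
      have h1 := HomA_val (gS k t.2.1) (hmem t.2.1) t.2.2
      have h2 : (GT k).tgt (gS k t.2.1) = (GT k).tgt (gA k a) := (tL_src a b t ht).2.1
      rw [h2] at h1
      exact h1
    · have : ev F (tL (a, b)) ∈ (⊥ : Submodule k S.M) :=
        ev_mem _ fun t ht => absurd (tL_src a b t ht).2.2.2 hb
      exact this
  refine mem_BPhi (m := 1) (ψ := (0, mkD (fun a => mkL fun b => ev F (tL (a, b))) 0 0)) rfl
    ⟨zero_mem _, gA_cases (fun a => hE a) (fun a => zero_mem _) fun v => zero_mem _⟩ ?_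
  refine dPhi_ext hS h0 (fun a b => ?_) (fun a b => ?_) fun v b => ?_
  · rw [dPhi_gA hS, HomA_eq_zero hS (gA k a) (n := 2 - 1 + 0) (by norm_num) (hφ.2 (gA k a))]
    rfl
  · rw [dPhi_gS hS, sub_self, sg_zero, one_smul]
    have e1 : ev (fun x : Fin 12 × Fin 80 => val (mkD (k := k)
        (fun a => mkL (k := k) (i := i) fun b => ev F (tL (a, b))) 0 0 (gA k x.1)) x.2) (d2L (a, b.1)) =
        ev (fun x => ev F (tL x)) (d2L (a, b.1)) := by
      refine ev_congr fun t ht => ?_
      exact val_mkL (k := k) (i := i) (fun b => ev F (tL (t.2.1, b))) t.2.2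
        ((d2L_src a b.1 t ht).trans b.2)
    refine e1.trans ?_
    by_cases ht : tB b.1 = tgtA a
    · have e2 := ev_canc F 9 _ (I2 a b.1 ht)
      rw [ev_cons, ev_append, ev_bindL, ev_bindL] at e2
      have e3 : ev (fun x => ev F (d3L x)) (uL (a, b.1)) = 0 := by
        rw [← ev_zero (N := S.M) (uL (a, b.1))]
        exact ev_congr fun t ht => R' t.2 (((uL_src a b.1 t ht).1).trans b.2)
      rw [e3, add_zero] at e2
      have e4 : F (a, b.1) = φ.2 (gS k a) (bv b) := val_eq _ b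
      rw [← e4]
      have e5 : (-1 : ℤ) • F (a, b.1) = - F (a, b.1) := by simp
      rw [e5] at e2
      exact (neg_add_eq_zero.1 e2).symm
    · rw [d2L_nil a b.1 ht, ev_nil]
      exact ((hmem a).2 (tB b.1) 0 (bv b) ht (bv_mem b)).symm
  · rw [dPhi_gL hS, HomA_eq_zero hS (gL k v) (n := 2 - 1 + -2) (by norm_num) (hφ.2 (gL k v))]
    exact loop_zero (fun _ => 0) (fun _ => rfl) _ _ _

/-- the socle element of `Yd k i` -/
def oY (i : Fin 6) : BY i := ⟨oB i, (sB_oB i).1⟩

/-- the generator of `Yd k i` -/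
def eY (i : Fin 6) : BY i := ⟨eB i, (sB_eB i).1⟩

/-- A cochain of degree `3` vanishing on the socle is a coboundary. -/
theorem ext3_aux (hS : IsSm (Γ := GT k) j S) {φ : Amb (Yd k i) S} (hφ : φ ∈ Phi (Yd k i) S 3)
    (hz : φ.2 (gL k i) (bv (oY i)) = 0) : φ ∈ BPhi (Yd k i) S 3 := by
  have h0 : φ.1 = 0 := HomV_eq_zero hS three_ne_zero hφ.1
  set F : Fin 80 → S.M := fun x => val (φ.2 (gL k (tB x))) x with hF
  have hmem : ∀ v, φ.2 (gL k v) ∈ HomA (gL k v) (Yd k i) S 0 := by
    intro v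
    have h := hφ.2 (gL k v)
    rwa [show (3 : ℤ) - 1 + (GT k).deg (gL k v) = 0 from rfl] at h
  have hE : ∀ c, mkL (k := k) (i := i) (fun b => ev F (uL (c, b))) ∈
      HomA (gS k c) (Yd k i) S (2 - 1 + (GT k).deg (gS k c)) := by
    intro c
    refine mkL_mem_HomA rfl (fun b _ _ => ?_) fun b _ hb => ?_
    · refine ev_mem _ fun t ht => ?_
      have h1 := HomA_val (gL k (tB t.2)) (hmem (tB t.2)) t.2
      have h2 : (GT k).tgt (gL k (tB t.2)) = (GT k).tgt (gS k c) := (uL_src c b t ht).2.1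
      rw [h2] at h1
      exact h1
    · have : ev F (uL (c, b)) ∈ (⊥ : Submodule k S.M) :=
        ev_mem _ fun t ht => absurd (uL_src c b t ht).2.2 hb
      exact this
  refine mem_BPhi (m := 2) (ψ := (0, mkD 0 (fun c => mkL fun b => ev F (uL (c, b))) 0)) rfl
    ⟨zero_mem _, gA_cases (fun a => zero_mem _) (fun c => hE c) fun v => zero_mem _⟩ ?_
  refine dPhi_ext hS h0 (fun a b => ?_) (fun a b => ?_) fun v b => ?_
  · rw [dPhi_gA hS, HomA_eq_zero hS (gA k a) (n := 3 - 1 + 0) (by norm_num) (hφ.2 (gA k a))]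
    rfl
  · rw [dPhi_gS hS, HomA_eq_zero hS (gS k a) (n := 3 - 1 + -1) (by norm_num) (hφ.2 (gS k a))]
    have : ev (fun x : Fin 12 × Fin 80 => val (((0, mkD 0 (fun c => mkL fun b => ev F (uL (c, b))) 0) :
        Amb (Yd k i) S).2 (gA k x.1)) x.2) (d2L (a, b.1)) = 0 := ev_val_zero (fun _ => 0) (fun _ => rfl) _
    rw [this, smul_zero]
    rfl
  · rw [dPhi_gL hS]
    have h1 : sg k ((2 : ℤ) - 1) = -1 := by norm_num
    rw [h1]
    have e1 : ev (fun x : Fin 12 × Fin 80 => val (((0, mkD 0 (fun c => mkL fun b => ev F (uL (c, b))) 0) :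
        Amb (Yd k i) S).2 (gS k x.1)) x.2) (d3L b.1) = ev (fun x => ev F (uL x)) (d3L b.1) := by
      refine ev_congr fun t ht => ?_
      exact val_mkL (k := k) (i := i) (fun b => ev F (uL (t.2.1, b))) t.2.2
        ((d3L_src b.1 t ht).trans b.2)
    rw [e1]
    by_cases hv : tB b.1 = v
    · rw [if_pos hv]
      subst hv
      by_cases hb : b = oY i
      · subst hb
        have hv : tB (oY i).1 = i := (sB_oB i).2
        have e2 : ev (fun x => ev F (uL x)) (d3L (oY i).1) = 0 := by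
          have : d3L (oY i).1 = [] := d3_oB i
          rw [this, ev_nil]
        rw [e2, hv, hz]
        simp
      · have hb' : b.1 ≠ oB (sB b.1) := by
          intro h
          rw [b.2] at h
          exact hb (Subtype.ext h)
        have e2 := ev_canc F 9 _ (I3 b.1 hb')
        rw [ev_cons, ev_bindL] at e2
        have e4 : F b.1 = φ.2 (gL k (tB b.1)) (bv b) := val_eq _ b
        rw [← e4]
        have e5 : (-1 : ℤ) • F b.1 = - F b.1 := by simp
        rw [e5] at e2
        rw [← neg_add_eq_zero.1 e2]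
        simp
    · rw [if_neg hv, smul_zero]
      exact ((hmem v).2 (tB b.1) 0 (bv b) hv (bv_mem b)).symm

theorem phi_other (hS : IsSm (Γ := GT k) j S) {n : ℤ} (h0 : n ≠ 0) (h1 : n ≠ 1) (h2 : n ≠ 2) (h3 : n ≠ 3)
    {φ : Amb (Yd k i) S} (hφ : φ ∈ Phi (Yd k i) S n) : φ = 0 := by
  refine Prod.ext (HomV_eq_zero hS h0 hφ.1) (funext fun a => ?_)
  refine gA_cases (P := fun a => φ.2 a = 0) (fun a => ?_) (fun a => ?_) (fun v => ?_) a
  · exact HomA_eq_zero hS (gA k a) (n := n - 1 + 0) (by omega) (hφ.2 (gA k a))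
  · exact HomA_eq_zero hS (gS k a) (n := n - 1 + -1) (by omega) (hφ.2 (gS k a))
  · exact HomA_eq_zero hS (gL k v) (n := n - 1 + -2) (by omega) (hφ.2 (gL k v))

/-- A cocycle of degree `0` vanishing on the generator is zero. -/
theorem ext0_aux (hS : IsSm (Γ := GT k) j S) {φ : Amb (Yd k i) S} (hφ : φ ∈ ZPhi (Yd k i) S 0)
    (hz : φ.1 (bv (eY i)) = 0) : φ = 0 := by
  obtain ⟨hφ, hd⟩ := hφ
  have hd' : dPhi 0 φ = 0 := hd
  refine Prod.ext (ext_bv fun b => ?_) (funext fun a => ?_)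
  · by_cases hb : b = eY i
    · rw [hb, hz]; rfl
    · have hb' : b.1 ≠ eB (sB b.1) := by
        intro h
        rw [b.2] at h
        exact hb (Subtype.ext h)
      obtain ⟨t, ht, h1⟩ := sL_act b.1 hb'
      have h2 := (sL_src b.1 t ht).1
      have h3 := dPhi_gA hS 0 φ t.2.1 ⟨t.2.2, h2.trans b.2⟩
      rw [hd'] at h3
      have h4 : actY i (.arr t.2.1) ⟨t.2.2, h2.trans b.2⟩ = some b := by
        refine Option.map_injective Subtype.val_injective ?_
        rw [actY_val]
        exact h1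
      rw [h4, ov_some] at h3
      exact h3.symm
  · refine gA_cases (P := fun a => φ.2 a = 0) (fun a => ?_) (fun a => ?_) (fun v => ?_) a
    · exact HomA_eq_zero hS (gA k a) (n := 0 - 1 + 0) (by omega) (hφ.2 (gA k a))
    · exact HomA_eq_zero hS (gS k a) (n := 0 - 1 + -1) (by omega) (hφ.2 (gS k a))
    · exact HomA_eq_zero hS (gL k v) (n := 0 - 1 + -2) (by omega) (hφ.2 (gL k v))

lemma exists_gen (hS : IsSm (Γ := GT k) j S) : ∃ s : S.M, s ≠ 0 ∧ ∀ x : S.M, ∃ c : k, x = c • s := by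
  obtain ⟨s, hs, h⟩ := finrank_eq_one_iff'.1 hS.one
  exact ⟨s, hs, fun x => by obtain ⟨c, hc⟩ := h x; exact ⟨c, hc.symm⟩⟩

theorem finrank0 (hS : IsSm (Γ := GT k) i S) : Module.finrank k (HPhi (Yd k i) S 0) = 1 := by
  obtain ⟨s, hs, hgen⟩ := exists_gen hS
  let z : Amb (Yd k i) S := (mkL fun b => if b = eB i then s else 0, 0)
  have hz1 : z.1 (bv (eY i)) = s := by
    change mkL (k := k) (i := i) (fun b => if b = eB i then s else 0) (bv (eY i)) = s
    rw [mkL_bv]
    exact if_pos rfl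
  have hz : z ∈ ZPhi (Yd k i) S 0 := by
    refine ⟨⟨?_, fun a => zero_mem _⟩, ?_⟩
    · intro v p q x hpq hx
      refine gr_test _ _ hx fun b hb hp => ?_
      change mkL (k := k) (i := i) (fun b => if b = eB i then s else 0) (bv b) ∈ _
      rw [mkL_bv, ← hpq, hp]
      split_ifs with h
      · rw [← hb, h, (sB_eB i).2]
        have : S.gr i (0 + 0) = ⊤ := hS.gr_top
        rw [this]
        trivial
      · exact zero_mem _
    · refine dPhi_ext hS (φ := 0) rfl (fun a b => ?_) (fun a b => ?_) fun v b => ?_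
      · rw [dPhi_gA hS]
        rcases h : actY i (.arr a) b with _ | y
        · rfl
        · change mkL (k := k) (i := i) (fun b => if b = eB i then s else 0) (bv y) = 0
          rw [mkL_bv, if_neg]
          have h1 := actY_val i a b
          rw [h] at h1
          exact actT_ne_eB a b.1 y.1 h1.symm i
      · rw [dPhi_gS hS]
        have : ev (fun x : Fin 12 × Fin 80 => val (z.2 (gA k x.1)) x.2) (d2L (a, b.1)) = 0 :=
          ev_val_zero (fun _ => 0) (fun _ => rfl) _
        rw [this, smul_zero]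
        rfl
      · rw [dPhi_gL hS]
        exact loop_zero (fun _ => 0) (fun _ => rfl) _ _ _
  refine finrank_quot_one _ _ z hz ?_ ?_
  · rintro ⟨ψ, hψ, hψ'⟩
    have h1 : ψ = 0 := phi_other hS (by norm_num) (by norm_num) (by norm_num) (by norm_num) hψ
    rw [h1, map_zero] at hψ'
    rw [← hψ'] at hz1
    exact hs hz1.symm
  · intro x hx
    obtain ⟨c, hc⟩ := hgen (x.1 (bv (eY i)))
    refine ⟨c, ?_⟩
    have : x - c • z = 0 := by
      refine ext0_aux hS (sub_mem hx (Submodule.smul_mem _ c hz)) ?_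
      change x.1 (bv (eY i)) - c • z.1 (bv (eY i)) = 0
      rw [hz1, hc, sub_self]
    rw [this]
    exact zero_mem _

theorem finrank3 (hS : IsSm (Γ := GT k) i S) : Module.finrank k (HPhi (Yd k i) S 3) = 1 := by
  obtain ⟨s, hs, hgen⟩ := exists_gen hS
  let z : Amb (Yd k i) S :=
    (0, mkD 0 0 fun v => if v = i then mkL fun b => if b = oB i then s else 0 else 0)
  have hzi : z.2 (gL k i) = mkL fun b => if b = oB i then s else 0 := by
    change (if i = i then mkL (k := k) (i := i) (fun b => if b = oB i then s else 0) else 0) = _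
    rw [if_pos rfl]
  have hz1 : z.2 (gL k i) (bv (oY i)) = s := by
    rw [hzi, mkL_bv]
    exact if_pos rfl
  have hzp : z ∈ Phi (Yd k i) S 3 := by
    refine ⟨zero_mem _, gA_cases (fun a => zero_mem _) (fun a => zero_mem _) fun v => ?_⟩
    change (if v = i then mkL (k := k) (i := i) (fun b => if b = oB i then s else 0) else 0) ∈ _
    split_ifs with hv
    · subst hv
      refine mkL_mem_HomA rfl (fun b _ _ => ?_) fun b _ hb => ?_
      · have : S.gr v 0 = ⊤ := hS.gr_top
        have h2 : S.gr ((GT k).tgt (gL k v)) 0 = ⊤ := this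
        rw [h2]
        trivial
      · rw [if_neg]
        rintro rfl
        exact hb (sB_oB v).2
    · exact zero_mem _
  have hz : z ∈ ZPhi (Yd k i) S 3 := by
    refine ⟨hzp, ?_⟩
    refine dPhi_ext hS (φ := 0) rfl (fun a b => ?_) (fun a b => ?_) fun v b => ?_
    · rw [dPhi_gA hS]
      rfl
    · rw [dPhi_gS hS]
      have : ev (fun x : Fin 12 × Fin 80 => val (z.2 (gA k x.1)) x.2) (d2L (a, b.1)) = 0 :=
        ev_val_zero (fun _ => 0) (fun _ => rfl) _
      rw [this, smul_zero]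
      rfl
    · rw [dPhi_gL hS]
      exact loop_zero (fun _ => 0) (fun _ => rfl) _ _ _
  refine finrank_quot_one _ _ z hz ?_ ?_
  · rintro ⟨ψ, hψ, hψ'⟩
    have h1 := dPhi_gL hS (3 - 1) ψ i (oY i)
    have h2 : d3L (oY i).1 = [] := d3_oB i
    rw [hψ', hz1, h2, ev_nil] at h1
    simp at h1
    exact hs h1
  · intro x hx
    obtain ⟨c, hc⟩ := hgen (x.2 (gL k i) (bv (oY i)))
    refine ⟨c, ext3_aux hS (sub_mem hx.1 (Submodule.smul_mem _ c hzp)) ?_⟩
    change x.2 (gL k i) (bv (oY i)) - c • z.2 (gL k i) (bv (oY i)) = 0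
    rw [hz1, hc, sub_self]

/-- The dimensions of `Hᵐ Φ(Yd i, S_j)`. -/
theorem finrank_HPhi (hS : IsSm (Γ := GT k) j S) (m : ℤ) :
    Module.finrank k (HPhi (Yd k i) S m) = if i = j ∧ (m = 0 ∨ m = 3) then 1 else 0 := by
  split_ifs with h
  · obtain ⟨rfl, rfl | rfl⟩ := h
    · exact finrank0 hS
    · exact finrank3 hS
  · refine finrank_quot_zero _ _ ?_
    by_cases h1 : m = 1
    · subst h1; exact ext1 hS
    by_cases h2 : m = 2
    · subst h2; exact ext2 hS
    by_cases h0 : m = 0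
    · subst h0
      have hij : i ≠ j := fun hij => h ⟨hij, Or.inl rfl⟩
      intro φ hφ
      have : φ = 0 := by
        refine ext0_aux hS hφ ?_
        have h3 := hφ.1.1 i 0 0 (bv (eY i)) (by norm_num)
          (by have := bv_mem (k := k) (eY i); rwa [show tB (eY i).1 = i from (sB_eB i).2] at this)
        exact hS.gr_bot _ _ (Or.inl hij) _ h3
      rw [this]
      exact zero_mem _
    by_cases h3 : m = 3
    · subst h3
      have hij : i ≠ j := fun hij => h ⟨hij, Or.inr rfl⟩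
      intro φ hφ
      refine ext3_aux hS hφ.1 ?_
      have h3 := HomA_bv (gL k i) (hφ.1.2 (gL k i)) (oY i)
      exact hS.gr_bot _ _ (Or.inl hij) _ h3
    · intro φ hφ
      rw [phi_other hS h0 h1 h2 h3 hφ.1]
      exact zero_mem _

end

end N0

end GZ
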