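import Pool.Agent.Lib_MP_a23b08_n0.N0Yd
import Pool.Agent.Lib_MP_a23b08_g.GCoh

/-!
# MP_a23b08_al, part N0: traces on the projectives of the torus quiver with potential

Every trace on the strict endomorphisms of the modules `Yd k i` which vanishes on the identities and on ONE socle
endomorphism `om k i` is zero (`tr_eq_zero`). A morphism `Yd k i ⟶ Yd k j` is determined by the image of the generator
`eB i`; the right multiplications by words are the morphisms `rH k i j w`.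
-/

set_option autoImplicit false

open CategoryTheory

namespace GZ

namespace N0

/-- table of the right multiplications by the arrows, `80` means zero -/
def rN : List (List ℕ) := [
    [80, 80, 80, 80, 80, 80, 80, 80, 80, 80, 80, 80, 80, 80, 80, 80, 80, 80, 80, 80, 80, 80, 80, 80,
     80, 80, 80, 80, 80, 80, 80, 80, 1, 14, 80, 80, 2, 3, 4, 5, 6, 7, 15, 80, 80, 80, 80, 80, 80, 80,
     80, 80, 80, 80, 80, 80, 80, 80, 80, 80, 80, 80, 80, 80, 80, 80, 80, 80, 80, 80, 80, 80, 80, 80,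
     80, 80, 80, 80, 80, 80],
    [80, 80, 80, 80, 80, 80, 80, 80, 80, 80, 80, 80, 80, 80, 80, 80, 80, 80, 80, 80, 80, 80, 80, 80,
     80, 80, 80, 80, 80, 80, 80, 80, 80, 80, 80, 80, 80, 80, 80, 80, 80, 80, 80, 80, 33, 42, 80, 80,
     80, 80, 80, 80, 34, 35, 43, 80, 80, 80, 80, 80, 80, 80, 80, 80, 80, 80, 80, 80, 80, 80, 80, 80,
     80, 80, 80, 80, 80, 80, 80, 80],
    [45, 54, 80, 80, 80, 80, 80, 80, 46, 47, 48, 49, 50, 51, 55, 80, 80, 80, 80, 80, 80, 80, 80, 80,
     80, 80, 80, 80, 80, 80, 80, 80, 80, 80, 80, 80, 80, 80, 80, 80, 80, 80, 80, 80, 80, 80, 80, 80,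
     80, 80, 80, 80, 80, 80, 80, 80, 80, 80, 80, 80, 80, 80, 80, 80, 80, 80, 80, 80, 80, 80, 80, 80,
     80, 80, 80, 80, 80, 80, 80, 80],
    [80, 80, 80, 80, 80, 80, 80, 80, 80, 80, 80, 80, 80, 80, 80, 80, 80, 80, 80, 80, 80, 80, 80, 80,
     80, 80, 80, 80, 80, 80, 80, 80, 80, 80, 80, 80, 80, 80, 80, 80, 80, 80, 80, 80, 80, 80, 80, 80,
     80, 80, 80, 80, 80, 80, 80, 80, 17, 30, 80, 80, 18, 19, 20, 21, 22, 23, 31, 80, 80, 80, 80, 80,
     80, 80, 80, 80, 80, 80, 80, 80],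
    [80, 80, 80, 80, 80, 80, 80, 80, 80, 80, 80, 80, 80, 80, 80, 80, 80, 80, 80, 80, 80, 80, 80, 80,
     80, 80, 80, 80, 80, 80, 80, 80, 57, 58, 59, 67, 66, 80, 80, 80, 80, 80, 80, 80, 80, 80, 80, 80,
     80, 80, 80, 80, 80, 80, 80, 80, 80, 80, 80, 80, 80, 80, 80, 80, 80, 80, 80, 80, 80, 80, 80, 80,
     80, 80, 80, 80, 80, 80, 80, 80],
    [80, 80, 80, 80, 80, 80, 80, 80, 80, 80, 80, 80, 80, 80, 80, 80, 36, 35, 80, 80, 80, 80, 80, 80,
     37, 38, 39, 40, 41, 42, 43, 80, 80, 80, 80, 80, 80, 80, 80, 80, 80, 80, 80, 80, 80, 80, 80, 80,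
     80, 80, 80, 80, 80, 80, 80, 80, 80, 80, 80, 80, 80, 80, 80, 80, 80, 80, 80, 80, 80, 80, 80, 80,
     80, 80, 80, 80, 80, 80, 80, 80],
    [80, 80, 80, 80, 80, 80, 80, 80, 80, 80, 80, 80, 80, 80, 80, 80, 80, 80, 80, 80, 80, 80, 80, 80,
     80, 80, 80, 80, 80, 80, 80, 80, 80, 80, 80, 80, 80, 80, 80, 80, 80, 80, 80, 80, 80, 80, 80, 80,
     80, 80, 80, 80, 80, 80, 80, 80, 80, 80, 80, 80, 80, 80, 80, 80, 80, 80, 80, 80, 8, 7, 80, 80, 9,
     10, 11, 12, 13, 14, 15, 80],
    [80, 80, 80, 80, 80, 80, 80, 80, 80, 80, 80, 80, 80, 80, 80, 80, 80, 80, 80, 80, 80, 80, 80, 80,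
     80, 80, 80, 80, 80, 80, 80, 80, 80, 80, 80, 80, 80, 80, 80, 80, 80, 80, 80, 80, 80, 80, 80, 80,
     80, 80, 80, 80, 80, 80, 80, 80, 69, 70, 71, 79, 78, 80, 80, 80, 80, 80, 80, 80, 80, 80, 80, 80,
     80, 80, 80, 80, 80, 80, 80, 80],
    [60, 61, 62, 63, 64, 65, 66, 67, 59, 80, 80, 80, 80, 80, 80, 80, 80, 80, 80, 80, 80, 80, 80, 80,
     80, 80, 80, 80, 80, 80, 80, 80, 80, 80, 80, 80, 80, 80, 80, 80, 80, 80, 80, 80, 80, 80, 80, 80,
     80, 80, 80, 80, 80, 80, 80, 80, 80, 80, 80, 80, 80, 80, 80, 80, 80, 80, 80, 80, 80, 80, 80, 80,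
     80, 80, 80, 80, 80, 80, 80, 80],
    [80, 80, 80, 80, 80, 80, 80, 80, 80, 80, 80, 80, 80, 80, 80, 80, 80, 80, 80, 80, 80, 80, 80, 80,
     80, 80, 80, 80, 80, 80, 80, 80, 80, 80, 80, 80, 80, 80, 80, 80, 80, 80, 80, 80, 24, 25, 26, 27,
     28, 29, 30, 31, 23, 80, 80, 80, 80, 80, 80, 80, 80, 80, 80, 80, 80, 80, 80, 80, 80, 80, 80, 80,
     80, 80, 80, 80, 80, 80, 80, 80],
    [80, 80, 80, 80, 80, 80, 80, 80, 80, 80, 80, 80, 80, 80, 80, 80, 80, 80, 80, 80, 80, 80, 80, 80,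
     80, 80, 80, 80, 80, 80, 80, 80, 80, 80, 80, 80, 80, 80, 80, 80, 80, 80, 80, 80, 80, 80, 80, 80,
     80, 80, 80, 80, 80, 80, 80, 80, 80, 80, 80, 80, 80, 80, 80, 80, 80, 80, 80, 80, 52, 53, 54, 55,
     51, 80, 80, 80, 80, 80, 80, 80],
    [80, 80, 80, 80, 80, 80, 80, 80, 80, 80, 80, 80, 80, 80, 80, 80, 72, 73, 74, 75, 76, 77, 78, 79,
     71, 80, 80, 80, 80, 80, 80, 80, 80, 80, 80, 80, 80, 80, 80, 80, 80, 80, 80, 80, 80, 80, 80, 80,
     80, 80, 80, 80, 80, 80, 80, 80, 80, 80, 80, 80, 80, 80, 80, 80, 80, 80, 80, 80, 80, 80, 80, 80,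
     80, 80, 80, 80, 80, 80, 80, 80]]

/-- the product `b a` of a basis element and an arrow, `none` means zero -/
def rT (a : Fin 12) (b : Fin 80) : Option (Fin 80) :=
  if h : (rN.getD a []).getD b 80 < 80 then some ⟨(rN.getD a []).getD b 80, h⟩ else none

/-- right multiplication by a word -/
def rW : List (Fin 12) → Fin 80 → Option (Fin 80)
  | [], b => some b
  | a :: w, b => (rT a b).bind (rW w)

theorem rT_src : ∀ a b, ∀ b' ∈ rT a b, sB b = tgtA a ∧ sB b' = srcA a ∧ tB b' = tB b := by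
  decide +kernel

theorem rT_comm : ∀ a c b, (actT c b).bind (rT a) = (rT a b).bind (actT c) := by
  decide +kernel

theorem wB_rW : ∀ b, rW (wB b) (eB (tB b)) = some b := by decide +kernel

/-- the vertex following `i` on the way to vertex `0` -/
def nx : Fin 6 → Fin 6 := ![2, 4, 3, 0, 2, 4]

theorem rot_o : ∀ i, ∃ w a, wB (oB i) = w ++ [a] ∧ rW (a :: w) (eB (nx i)) = some (oB (nx i)) ∧
    (rW w (eB i)).map sB = some (nx i) ∧ (rW [a] (eB (nx i))).map sB = some i := by
  intro i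
  refine ⟨(wB (oB i)).dropLast, (wB (oB i)).getLastD 0, ?_⟩
  revert i
  decide +kernel

theorem rot_n : ∀ b, sB b = tB b → b ≠ eB (sB b) → b ≠ oB (sB b) →
    ∃ w a, wB b = w ++ [a] ∧ rW (a :: w) (eB (tgtA a)) = none ∧
    (rW w (eB (sB b))).map sB = some (tgtA a) ∧ (rW [a] (eB (tgtA a))).map sB = some (sB b) := by
  intro b h1 h2 h3
  refine ⟨(wB b).dropLast, (wB b).getLastD 0, ?_⟩
  revert b
  decide +kernel

private theorem rW_tgt (w : List (Fin 12)) : ∀ b, ∀ b' ∈ rW w b, tB b' = tB b := by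
  induction w with
  | nil =>
    intro b b' h
    have : b = b' := by simpa [rW] using h
    rw [this]
  | cons a w ih =>
    intro b b' h
    rcases h1 : rT a b with _ | c
    · simp [rW, h1] at h
    · have h2 : b' ∈ rW w c := by simpa [rW, h1] using h
      rw [ih c b' h2, (rT_src a b c h1).2.2]

private theorem rW_comm (w : List (Fin 12)) : ∀ c b, (actT c b).bind (rW w) = (rW w b).bind (actT c) := by
  induction w with
  | nil =>
    intro c b
    rcases h : actT c b with _ | y <;> simp [rW, h]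
  | cons a w ih =>
    intro c b
    have h := rT_comm a c b
    have e1 : (actT c b).bind (rW (a :: w)) = ((actT c b).bind (rT a)).bind (rW w) := by
      rcases actT c b with _ | y <;> rfl
    rw [e1, h]
    rcases h2 : rT a b with _ | y
    · simp [rW, h2]
    · simpa [rW, h2] using ih c y

private theorem res_of (j : Fin 6) (y : Fin 80) (h : sB y = j) : res j y = some ⟨y, h⟩ := by
  simp [res, h]

private theorem res_ne (j : Fin 6) (y : Fin 80) (h : sB y ≠ j) : res j y = none := by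
  simp [res, h]

/-- right multiplication by a word, on the bases of `Yd k i` and `Yd k j` -/
def mapY (i j : Fin 6) (w : List (Fin 12)) (x : BY i) : Option (BY j) := (rW w x.1).bind (res j)

private theorem mapY_comm (i j : Fin 6) (w : List (Fin 12)) (c : Fin 12) (x : BY i) :
    (actY i (.arr c) x).bind (mapY i j w) = (mapY i j w x).bind (actY j (.arr c)) := by
  have e1 : (actY i (.arr c) x).bind (mapY i j w) = ((actT c x.1).bind (rW w)).bind (res j) := by
    rcases h : actT c x.1 with _ | y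
    · simp [actY, h]
    · have h2 := (actT_src c x.1 y h).2.2
      simp [actY, h, mapY, res_of i y (h2.trans x.2)]
  have e2 : (mapY i j w x).bind (actY j (.arr c)) = ((rW w x.1).bind (actT c)).bind (res j) := by
    rcases h : rW w x.1 with _ | z
    · simp [mapY, h]
    · by_cases hz : sB z = j
      · simp [mapY, h, res_of j z hz, actY]
      · have e3 : (actT c z).bind (res j) = none := by
          rcases h3 : actT c z with _ | y
          · rfl
          · have h2 := (actT_src c z y h3).2.2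
            simpa using res_ne j y (by rw [h2]; exact hz)
        simp [mapY, h, res_ne j z hz, e3]
  rw [e1, e2, rW_comm]

private theorem mapY_tgt (i j : Fin 6) (w : List (Fin 12)) (x : BY i) (y : BY j)
    (h : y ∈ mapY i j w x) : tB y.1 = tB x.1 := by
  rcases h1 : rW w x.1 with _ | z
  · simp [mapY, h1] at h
  · by_cases hz : sB z = j
    · have h2 : (⟨z, hz⟩ : BY j) = y := by simpa [mapY, h1, res_of j z hz] using h
      rw [← h2]
      exact rW_tgt w x.1 z h1
    · simp [mapY, h1, res_ne j z hz] at h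

section

variable (k : Type) [Field k]

theorem Yd_act (i : Fin 6) (a : Gen (Fin 6) (Fin 12)) :
    (Yd k i).act a = pmap (k := k) (actY i a) := rfl

theorem Yd_gr (i : Fin 6) (v : Fin 6) (n : ℤ) :
    (Yd k i).gr v n = Finsupp.supported k k {x : BY i | tB x.1 = v ∧ n = 0} := rfl

theorem Yd_d (i : Fin 6) : (Yd k i).d = 0 := rfl

/-- right multiplication by the word `w`, a morphism `Yd k i ⟶ Yd k j` -/
noncomputable def rH (i j : Fin 6) (w : List (Fin 12)) : Yd k i ⟶ Yd k j :=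
  DGM.homMk (X := Yd k i) (Y := Yd k j) (pmap (k := k) (mapY i j w))
    (by
      intro v p x hx
      refine supp_map hx (pmap (k := k) (mapY i j w)) _ ?_
      rintro y ⟨h1, h2⟩
      rw [pmap_single]
      rcases h : mapY i j w y with _ | z
      · exact zero_mem _
      · exact Finsupp.single_mem_supported k _ ⟨(mapY_tgt i j w y z h).trans h1, h2⟩)
    (by
      intro a x
      change (pmap (k := k) (mapY i j w) ∘ₗ pmap (k := k) (actY i a)) x =
        (pmap (k := k) (actY j a) ∘ₗ pmap (k := k) (mapY i j w)) x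
      congr 1
      ext y : 2
      simp only [LinearMap.comp_apply, Finsupp.lsingle_apply, pmap_single, pmap_osingle]
      cases a with
      | arr c => exact congrArg osingle (mapY_comm i j w c y)
      | star c => rcases mapY i j w y with _ | z <;> rfl
      | loop v => rcases mapY i j w y with _ | z <;> rfl)
    (by
      intro x
      rw [Yd_d, Yd_d]
      simp)

/-- the generator of `Yd k i` -/
noncomputable def gn (i : Fin 6) : (Yd k i).M :=
  (Finsupp.single (⟨eB i, (sB_eB i).1⟩ : BY i) (1 : k) : BY i →₀ k)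

theorem rH_gn (i j : Fin 6) (w : List (Fin 12)) :
    DGM.lin (rH k i j w) (gn k i) = osingle (k := k) ((rW w (eB i)).bind (res j)) :=
  pmap_single (mapY i j w) _

theorem single_eq (i : Fin 6) (x : BY i) :
    (Finsupp.single x (1 : k) : BY i →₀ k) = evW (Yd k i).act ((wB x.1).map Gen.arr) (gn k i) := by
  have h := evW_pmap (k := k) (actY i) ((wB x.1).map Gen.arr) (⟨eB i, (sB_eB i).1⟩ : BY i)
  have h1 := actWT_actY i (wB x.1) (⟨eB i, (sB_eB i).1⟩ : BY i)
  have h2 := wB_act x.1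
  rw [x.2] at h2
  rw [h2] at h1
  obtain ⟨y, hy, hy2⟩ := Option.map_eq_some_iff.1 h1
  have : y = x := Subtype.ext hy2
  rw [this] at hy
  rw [hy] at h
  exact h.symm

theorem evW_hom {Γ : QF k} {X Y : DGM Γ} (f : X ⟶ Y) (w : List Γ.A) (x : X.M) :
    DGM.lin f (evW X.act w x) = evW Y.act w (DGM.lin f x) := by
  induction w with
  | nil => rfl
  | cons a w ih => rw [evW_cons, evW_cons, DGM.lin_act, ih]

/-- A morphism from `Yd k i` is determined by the image of the generator. -/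
theorem hom_ext_gn {i : Fin 6} {X : DGM (ginz (torus k))} {f g : Yd k i ⟶ X}
    (h : DGM.lin f (gn k i) = DGM.lin g (gn k i)) : f = g := by
  apply DGM.lin_injective
  refine Finsupp.lhom_ext' fun x => LinearMap.ext_ring ?_
  change DGM.lin f (Finsupp.single x (1 : k) : BY i →₀ k) = DGM.lin g (Finsupp.single x (1 : k) : BY i →₀ k)
  rw [single_eq, evW_hom, evW_hom, h]

theorem rH_nil (i : Fin 6) : rH k i i [] = 𝟙 _ := by
  apply hom_ext_gn
  rw [rH_gn]
  simp only [rW, Option.bind_some, res_of i (eB i) (sB_eB i).1]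
  rfl

/-- the composition of two right multiplications -/
theorem rH_comp (i j l : Fin 6) (w w' : List (Fin 12)) (h : (rW w (eB i)).map sB = some j) :
    rH k i j w ≫ rH k j l w' = rH k i l (w ++ w') := by
  apply hom_ext_gn
  rw [DGM.lin_comp_apply, rH_gn, rH_gn]
  obtain ⟨y, hy, hy2⟩ := Option.map_eq_some_iff.1 h
  have e : ∀ (w : List (Fin 12)) (b : Fin 80), rW (w ++ w') b = (rW w b).bind (rW w') := by
    intro w
    induction w with
    | nil => intro b; rfl
    | cons a w ih =>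
      intro b
      rcases h : rT a b with _ | c
      · simp [rW, h]
      · simp [rW, h, ih]
  rw [e, hy]
  simp only [Option.bind_some, res_of j y hy2]
  exact pmap_single (mapY j l w') _

/-- the socle endomorphism of `Yd k i` -/
noncomputable def om (i : Fin 6) : Yd k i ⟶ Yd k i := rH k i i (wB (oB i))

theorem om_gn (i : Fin 6) : DGM.lin (om k i) (gn k i) =
    (Finsupp.single (⟨oB i, (sB_oB i).1⟩ : BY i) (1 : k) : BY i →₀ k) := by
  have h := wB_rW (oB i)
  rw [(sB_oB i).2] at h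
  rw [om, rH_gn, h]
  simp only [Option.bind_some, res_of i (oB i) (sB_oB i).1]
  rfl

end

section

variable {k : Type} [Field k] {τ : ∀ i, (Yd k i ⟶ Yd k i) →ₗ[k] k}

private theorem tr_om_nx (h2 : ∀ i j (f : Yd k i ⟶ Yd k j) (g : Yd k j ⟶ Yd k i),
    τ i (f ≫ g) = τ j (g ≫ f)) (i : Fin 6) : τ i (om k i) = τ (nx i) (om k (nx i)) := by
  obtain ⟨w, a, e1, e2, e3, e4⟩ := rot_o i
  have h3 : om k i = rH k i (nx i) w ≫ rH k (nx i) i [a] := by
    rw [rH_comp k i (nx i) i w [a] e3, ← e1]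
    rfl
  rw [h3, h2, rH_comp k (nx i) i (nx i) [a] w e4]
  congr 1
  apply hom_ext_gn
  rw [rH_gn, om_gn, List.singleton_append, e2]
  simp only [Option.bind_some, res_of (nx i) (oB (nx i)) (sB_oB (nx i)).1]
  rfl

private theorem tr_om_eq (h2 : ∀ i j (f : Yd k i ⟶ Yd k j) (g : Yd k j ⟶ Yd k i),
    τ i (f ≫ g) = τ j (g ≫ f)) (i : Fin 6) : τ i (om k i) = τ 0 (om k 0) := by
  have h : ∀ i : Fin 6, τ i (om k i) = τ (nx i) (om k (nx i)) := tr_om_nx h2
  have h3 : τ 3 (om k 3) = τ 0 (om k 0) := h 3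
  have h2' : τ 2 (om k 2) = τ 0 (om k 0) := (h 2).trans h3
  have h4 : τ 4 (om k 4) = τ 0 (om k 0) := (h 4).trans h2'
  have h1 : τ 1 (om k 1) = τ 0 (om k 0) := (h 1).trans h4
  have h5 : τ 5 (om k 5) = τ 0 (om k 0) := (h 5).trans h4
  fin_cases i
  · rfl
  · exact h1
  · exact h2'
  · exact h3
  · exact h4
  · exact h5

private theorem tr_rH (h1 : ∀ i, τ i (𝟙 (Yd k i)) = 0)
    (h2 : ∀ i j (f : Yd k i ⟶ Yd k j) (g : Yd k j ⟶ Yd k i), τ i (f ≫ g) = τ j (g ≫ f))
    (h3 : ∀ i, τ i (om k i) = 0) (b : Fin 80) (hb : sB b = tB b) :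
    τ (sB b) (rH k (sB b) (sB b) (wB b)) = 0 := by
  by_cases he : b = eB (sB b)
  · have e : wB b = [] := by
      have : ∀ i, wB (eB i) = [] := by decide +kernel
      rw [he]
      exact this _
    rw [e, rH_nil]
    exact h1 _
  · by_cases ho : b = oB (sB b)
    · have e : rH k (sB b) (sB b) (wB b) = om k (sB b) := by
        rw [om, ← ho]
      rw [e]
      exact h3 _
    · obtain ⟨w, a, e1, e2, e3, e4⟩ := rot_n b hb he ho
      have h4 : rH k (sB b) (sB b) (wB b) = rH k (sB b) (tgtA a) w ≫ rH k (tgtA a) (sB b) [a] := by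
        rw [rH_comp k (sB b) (tgtA a) (sB b) w [a] e3, ← e1]
      rw [h4, h2, rH_comp k (tgtA a) (sB b) (tgtA a) [a] w e4]
      have h5 : rH k (tgtA a) (tgtA a) ([a] ++ w) = 0 := by
        apply hom_ext_gn
        rw [rH_gn, List.singleton_append, e2]
        rfl
      rw [h5, map_zero]

/-- A trace on the strict endomorphisms of the `Yd k i` which vanishes on the identities and on one socle
endomorphism is zero. -/
theorem tr_eq_zero (h1 : ∀ i, τ i (𝟙 (Yd k i)) = 0)
    (h2 : ∀ i j (f : Yd k i ⟶ Yd k j) (g : Yd k j ⟶ Yd k i), τ i (f ≫ g) = τ j (g ≫ f))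
    (i : Fin 6) (h3 : τ i (om k i) = 0) (j : Fin 6) (f : Yd k j ⟶ Yd k j) : τ j f = 0 := by
  have h3' : ∀ l, τ l (om k l) = 0 := fun l => by
    rw [tr_om_eq h2 l, ← tr_om_eq h2 i, h3]
  let Θ : (BY j →₀ k) →ₗ[k] (Yd k j ⟶ Yd k j) :=
    Finsupp.linearCombination k fun b : BY j => rH k j j (wB b.1)
  have hgn : gn k j ∈ (Yd k j).gr j 0 :=
    Finsupp.single_mem_supported k _ ⟨(sB_eB j).2, rfl⟩
  have hf : DGM.lin f (gn k j) ∈ Finsupp.supported k k {x : BY j | tB x.1 = j ∧ (0 : ℤ) = 0} :=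
    DGM.lin_mem f hgn
  have hΘ : DGM.lin (Θ (DGM.lin f (gn k j))) (gn k j) = DGM.lin f (gn k j) := by
    let L : (Yd k j ⟶ Yd k j) →ₗ[k] (BY j →₀ k) :=
      { toFun := fun g => DGM.lin g (gn k j)
        map_add' := fun _ _ => rfl
        map_smul' := fun _ _ => rfl }
    have h := supp_map hf (L ∘ₗ Θ - LinearMap.id) ⊥ (by
      rintro y ⟨hy, -⟩
      rw [Submodule.mem_bot, LinearMap.sub_apply, LinearMap.comp_apply, LinearMap.id_apply, sub_eq_zero]
      have e : Θ (Finsupp.single y 1) = rH k j j (wB y.1) := by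
        simp [Θ]
      rw [e]
      change DGM.lin (rH k j j (wB y.1)) (gn k j) = _
      rw [rH_gn]
      have h := wB_rW y.1
      rw [hy] at h
      rw [h]
      simp only [Option.bind_some, res_of j y.1 y.2]
      rfl)
    rw [Submodule.mem_bot, LinearMap.sub_apply, sub_eq_zero] at h
    exact h
  have e : f = Θ (DGM.lin f (gn k j)) := hom_ext_gn k hΘ.symm
  rw [e]
  have h := supp_map hf (τ j ∘ₗ Θ) ⊥ (by
    rintro y ⟨hy, -⟩
    rw [Submodule.mem_bot, LinearMap.comp_apply]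
    have e : Θ (Finsupp.single y 1) = rH k j j (wB y.1) := by
      simp [Θ]
    rw [e]
    obtain ⟨b, hb⟩ := y
    subst hb
    exact tr_rH h1 h2 h3' b hy.symm)
  exact (Submodule.mem_bot k).1 h

end

section

variable (k : Type) [Field k] (hG : (ginz (torus k)).Nice)

private theorem pmap_actY_eB (i : Fin 6) (a : Gen (Fin 6) (Fin 12)) :
    Finsupp.lapply (⟨eB i, (sB_eB i).1⟩ : BY i) ∘ₗ pmap (k := k) (actY i a) = 0 := by
  ext y : 2
  simp only [LinearMap.comp_apply, Finsupp.lsingle_apply, pmap_single, LinearMap.zero_apply]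
  rcases h : actY i a y with _ | z
  · rfl
  · have hz : z ≠ (⟨eB i, (sB_eB i).1⟩ : BY i) := by
      rintro rfl
      cases a with
      | arr c =>
        have h1 := actY_val i c y
        rw [h] at h1
        exact actT_ne_eB c y.1 (eB i) h1.symm i rfl
      | star c => simp [actY] at h
      | loop v => simp [actY] at h
    exact Finsupp.single_eq_of_ne (Ne.symm hz)

private theorem pmap_actY_oB (i : Fin 6) (a : Gen (Fin 6) (Fin 12)) :
    pmap (k := k) (actY i a) (Finsupp.single (⟨oB i, (sB_oB i).1⟩ : BY i) 1) = 0 := by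
  rw [pmap_single]
  have : actY i a (⟨oB i, (sB_oB i).1⟩ : BY i) = none := by
    cases a with
    | arr c =>
      have h1 := actY_val i c (⟨oB i, (sB_oB i).1⟩ : BY i)
      rw [actT_oB] at h1
      simpa using h1
    | star c => rfl
    | loop v => rfl
  rw [this, osingle_none]

/-- the cover `Yd k i ⟶ Sm i` -/
noncomputable def pS (i : Fin 6) : Yd k i ⟶ DGM.Sm hG i :=
  DGM.homMk (X := Yd k i) (Y := DGM.Sm hG i) (Finsupp.lapply (⟨eB i, (sB_eB i).1⟩ : BY i))
    (by
      intro v p x hx hne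
      have h := (Finsupp.mem_supported k x).1 hx (Finsupp.mem_support_iff.2 hne)
      exact ⟨h.1.symm.trans (sB_eB i).2, h.2⟩)
    (fun a x => LinearMap.congr_fun (pmap_actY_eB k i a) x)
    (fun x => rfl)

/-- the map `k → Yd k i` to the socle -/
noncomputable def qL (i : Fin 6) : k →ₗ[k] (BY i →₀ k) :=
  LinearMap.toSpanSingleton k (BY i →₀ k) (Finsupp.single (⟨oB i, (sB_oB i).1⟩ : BY i) 1)

private theorem qL_apply (i : Fin 6) (x : k) :
    qL k i x = x • (Finsupp.single (⟨oB i, (sB_oB i).1⟩ : BY i) (1 : k) : BY i →₀ k) := rfl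

private theorem qL_act (i : Fin 6) (a : Gen (Fin 6) (Fin 12)) (x : k) :
    qL k i 0 = pmap (k := k) (actY i a) (qL k i x) := by
  rw [map_zero, qL_apply, map_smul, pmap_actY_oB, smul_zero]

private theorem qL_mem (i v : Fin 6) (p : ℤ) (x : k) (hx : x ∈ DGM.simpleGr k i v p) :
    qL k i x ∈ Finsupp.supported k k {x : BY i | tB x.1 = v ∧ p = 0} := by
  rw [qL_apply]
  by_cases h0 : x = 0
  · rw [h0, zero_smul]
    exact zero_mem _
  · obtain ⟨h1, h2⟩ := hx h0
    exact Submodule.smul_mem _ _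
      (Finsupp.single_mem_supported k _ ⟨(sB_oB i).2.trans h1.symm, h2⟩)

/-- the socle `Sm i ⟶ Yd k i` -/
noncomputable def qS (i : Fin 6) : DGM.Sm hG i ⟶ Yd k i :=
  DGM.homMk (X := DGM.Sm hG i) (Y := Yd k i) (qL k i)
    (fun v p x hx => qL_mem k i v p x hx)
    (fun a x => qL_act k i a x)
    (fun _ => map_zero (qL k i))

theorem pS_qS (i : Fin 6) : pS k hG i ≫ qS k hG i = om k i := by
  apply hom_ext_gn
  rw [om_gn, DGM.lin_comp_apply]
  change (Finsupp.single (⟨eB i, (sB_eB i).1⟩ : BY i) (1 : k) : BY i →₀ k) ⟨eB i, (sB_eB i).1⟩ •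
    (Finsupp.single (⟨oB i, (sB_oB i).1⟩ : BY i) (1 : k) : BY i →₀ k) = _
  rw [Finsupp.single_eq_same, one_smul]

/-- `PD` for the strict morphisms of the modules `Yd k i`. -/
theorem pd_strict (τ : ∀ i : Fin 6, (Yd k i ⟶ Yd k i) →ₗ[k] k) (h1 : ∀ i, τ i (𝟙 (Yd k i)) = 0)
    (h2 : ∀ i j (f : Yd k i ⟶ Yd k j) (g : Yd k j ⟶ Yd k i), τ i (f ≫ g) = τ j (g ≫ f)) (i : Fin 6)
    (h3 : ∀ (p : Yd k i ⟶ DGM.Sm hG i) (q : DGM.Sm hG i ⟶ Yd k i), τ i (p ≫ q) = 0) :
    ∀ (j : Fin 6) (f : Yd k j ⟶ Yd k j), τ j f = 0 :=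
  tr_eq_zero h1 h2 i (by rw [← pS_qS k hG i]; exact h3 _ _)

end

end N0

end GZ
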