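import Pool.Agent.Lib_MP_a23b08_n0.N0Main
import Pool.Agent.Lib_MP_a23b08_n0.N0Tr
import Pool.Agent.Lib_MP_a23b08_g.GFinal

/-!
# MP_a23b08_al, part N0: the standard t-structure of the torus with two punctures is good
-/

set_option autoImplicit false

open CategoryTheory

namespace GZ

variable (k : Type) [Field k]

/-- The standard t-structure is good. -/
theorem good_torus : EGr.Good k (stdT (ginz_nice (torus k))) :=
  ⟨Fin 6, inferInstance, simpT k, N0.YD0 k, by decide, torus_smlist k, N0.yd (ginz_nice (torus k)),
    N0.pd_of_strict (ginz_nice (torus k))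
      fun τ h1 h2 i h3 => N0.pd_strict k (ginz_nice (torus k)) τ h1 h2 i h3⟩

/-- All hearts in the component of the standard heart are non-degenerate, and the exchange groupoid is not
simply connected. -/
theorem torus_final [IsAlgClosed k] :
    (∀ a : EGr.Vertex (stdT (ginz_nice (torus k))), EGr.NonDeg a.t) ∧
      ¬ EGr.SimplyConnected k (stdT (ginz_nice (torus k))) :=
  torus_main k (good_torus k)

end GZ
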