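import Pool.Agent.Lib_MP_a23b08_n0.N0Nil
import Pool.Agent.Lib_MP_a23b08_g.GTheta
import Pool.Agent.Lib_MP_a23b08_g.GDnil
import Pool.Agent.Lib_MP_a23b08_g.GExtS
import Pool.Agent.Lib_MP_a23b08_n.NDef

/-!
# MP_a23b08_al, part N0: the base case in `Dnil`
-/

set_option autoImplicit false

open CategoryTheory

namespace GZ

namespace N0

open DGM

section gen

variable {k : Type} [Field k] {Γ : QF k} (hΓ : Γ.Nice)

/-- morphisms in `Dnil` and in the derived category -/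
noncomputable def inclE (X Y : Dnil Γ) :
    (X ⟶ Y) ≃ₗ[k] ((nilP Γ).ι.obj X ⟶ (nilP Γ).ι.obj Y) :=
  LinearEquiv.ofBijective ((nilP Γ).ι.mapLinearMap k)
    ⟨(nilP Γ).ι.map_injective, (nilP Γ).ι.map_surjective⟩

include hΓ in
/-- morphisms of degree `m` in `Dnil` -/
theorem finrank_Dnil (X Y : DGM Γ) (hX : IsNil X) (hY : IsNil Y) (m : ℤ) :
    Module.finrank k (Dnil.of X hX ⟶ (Dnil.of Y hY)⟦m⟧) = Module.finrank k (HPhi X Y m) := by
  obtain ⟨e⟩ := nonempty_hom_equiv hΓ X Y m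
  let e1 := inclE (Dnil.of X hX) ((Dnil.of Y hY)⟦m⟧)
  let e2 := Linear.homCongr k (Iso.refl ((Q Γ).obj X))
    (((nilP Γ).ι.commShiftIso m).app (Dnil.of Y hY))
  exact (e1.trans (e2.trans e)).finrank_eq

/-- the image in `Dnil` of a morphism of dg modules -/
noncomputable def dmap {X Y : DGM Γ} (hX : IsNil X) (hY : IsNil Y) :
    (X ⟶ Y) →ₗ[k] (Dnil.of X hX ⟶ Dnil.of Y hY) :=
  (inclE _ _).symm.toLinearMap ∘ₗ (Q Γ).mapLinearMap k

lemma incl_dmap {X Y : DGM Γ} (hX : IsNil X) (hY : IsNil Y) (f : X ⟶ Y) :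
    (nilP Γ).ι.map (dmap hX hY f) = (Q Γ).map f :=
  (inclE (Dnil.of X hX) (Dnil.of Y hY)).apply_symm_apply ((Q Γ).map f)

lemma dmap_comp {X Y Z : DGM Γ} (hX : IsNil X) (hY : IsNil Y) (hZ : IsNil Z) (f : X ⟶ Y) (g : Y ⟶ Z) :
    dmap hX hZ (f ≫ g) = dmap hX hY f ≫ dmap hY hZ g := by
  apply (nilP Γ).ι.map_injective
  rw [incl_dmap, Functor.map_comp (nilP Γ).ι, incl_dmap, incl_dmap, Functor.map_comp]
  rfl

lemma dmap_id {X : DGM Γ} (hX : IsNil X) : dmap hX hX (𝟙 X) = 𝟙 _ := by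
  apply (nilP Γ).ι.map_injective
  rw [incl_dmap, CategoryTheory.Functor.map_id, CategoryTheory.Functor.map_id]
  rfl

include hΓ in
/-- Morphisms between modules concentrated in degree `0`. -/
lemma dmap_surjective {X Y : DGM Γ} (hX : IsNil X) (hY : IsNil Y)
    (h : ∀ φ ∈ ZPhi X Y 0, φ.2 = 0 ∧ φ.1 ∈ Z0 X Y) : Function.Surjective (dmap hX hY) := by
  intro u
  obtain ⟨φ, hφ, h1⟩ := cl_surjective (theta hΓ X Y ((nilP Γ).ι.map u))
  obtain ⟨h2, h3⟩ := h φ hφ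
  let f : X ⟶ Y := ⟨φ.1, h3⟩
  refine ⟨f, ?_⟩
  apply (nilP Γ).ι.map_injective
  rw [incl_dmap]
  apply theta_injective hΓ X Y
  rw [theta_Q, h1]
  have : ((lin f, 0) : Amb X Y) = φ := Prod.ext rfl h2.symm
  congr 1

lemma bd_zero' {X Y : DGM Γ} (m : ℤ) : bd m (0 : Γ.A → (X.M →ₗ[k] Y.M)) = 0 := by
  have h := bd_smul (X := X) (Y := Y) m (0 : k) (0 : Γ.A → (X.M →ₗ[k] Y.M))
  rwa [zero_smul, zero_smul] at h

include hΓ in
/-- Morphisms between modules concentrated in degree `0`. -/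
lemma z0_of_deg0 {X Y : DGM Γ} (cX : ∀ v n, n ≠ 0 → ∀ x ∈ X.gr v n, x = 0)
    (cY : ∀ v n, n ≠ 0 → ∀ x ∈ Y.gr v n, x = 0) : ∀ φ ∈ ZPhi X Y 0, φ.2 = 0 ∧ φ.1 ∈ Z0 X Y := by
  rintro φ ⟨hφ, hd⟩
  have hd' : dPhi 0 φ = 0 := hd
  have h2 : φ.2 = 0 := by
    funext a
    refine X.ext_hom fun v n x hx => ?_
    by_cases hn : n = 0
    · subst hn
      by_cases hv : v = Γ.src a
      · subst hv
        have h := (hφ.2 a).1 0 (0 + (0 - 1 + Γ.deg a)) x rfl hx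
        refine cY _ _ ?_ _ h
        have := hΓ.deg_nonpos a
        omega
      · exact (hφ.2 a).2 v 0 x hv hx
    · rw [cX v n hn x hx]
      simp
  refine ⟨h2, fun v p x hx => hφ.1 v p p x (add_zero p) hx, fun a x => ?_, fun x => ?_⟩
  · have h3 : (dPhi 0 φ).2 a x = inn 0 φ.1 a x - bd (0 - 1) φ.2 a x := rfl
    rw [hd', h2, bd_zero', inn_apply, zero_mul, sg_zero, one_smul] at h3
    have h4 : (0 : Y.M) = φ.1 (X.act a x) - Y.act a (φ.1 x) - 0 := h3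
    rw [sub_zero] at h4
    exact sub_eq_zero.1 h4.symm
  · have h3 : (dPhi 0 φ).1 x = dH 0 φ.1 x := rfl
    rw [hd', dH_apply, sg_zero, one_smul] at h3
    have h4 : (0 : Y.M) = Y.d (φ.1 x) - φ.1 (X.d x) := h3
    exact (sub_eq_zero.1 h4.symm).symm

end gen

variable {k : Type} [Field k]

lemma Yd_deg0 (i : Fin 6) : ∀ v n, n ≠ 0 → ∀ x ∈ (Yd k i).gr v n, x = 0 := by
  intro v n hn x hx
  have : LinearMap.id (R := k) x ∈ (⊥ : Submodule k (Yd k i).M) :=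
    gr_test (k := k) (i := i) LinearMap.id ⊥ hx fun b _ h => absurd h hn
  exact this

/-- The objects `Y i` of `Dnil`. -/
noncomputable abbrev YD0 (k : Type) [Field k] (i : Fin 6) : Dnil (GT k) := Dnil.of (Yd k i) (isNil_Yd i)

/-- The simple objects of `Dnil`. -/
noncomputable abbrev XD0 (hG : (GT k).Nice) (i : Fin 6) : Dnil (GT k) := Dnil.of (Sm hG i) (isNil_Sm hG i)

/-- Base case: the dimensions. -/
theorem yd (hG : (GT k).Nice) : EGr.YD k (XD0 hG) (YD0 k) where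
  zero := by
    intro i j m h
    refine (finrank_Dnil hG (Yd k i) (Sm hG j) (isNil_Yd i) (isNil_Sm hG j) m).trans ?_
    rw [finrank_HPhi (isSm_Sm hG j) m, if_neg]
    rintro ⟨h1, h2⟩
    rcases h with h | ⟨h3, h4⟩
    · exact h h1
    · rcases h2 with h2 | h2
      · exact h3 h2
      · exact h4 h2
  one := by
    intro i m h
    refine (finrank_Dnil hG (Yd k i) (Sm hG i) (isNil_Yd i) (isNil_Sm hG i) m).trans ?_
    rw [finrank_HPhi (isSm_Sm hG i) m, if_pos ⟨rfl, h⟩]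

/-- The statement on traces for strict morphisms (proved in N0Tr). -/
def PDStrict (hG : (GT k).Nice) : Prop :=
  ∀ τ : ∀ i : Fin 6, (Yd k i ⟶ Yd k i) →ₗ[k] k, (∀ i, τ i (𝟙 _) = 0) →
    (∀ (i j : Fin 6) (f : Yd k i ⟶ Yd k j) (g : Yd k j ⟶ Yd k i), τ i (f ≫ g) = τ j (g ≫ f)) →
    ∀ i : Fin 6, (∀ (p : Yd k i ⟶ Sm hG i) (q : Sm hG i ⟶ Yd k i), τ i (p ≫ q) = 0) →
      ∀ (j : Fin 6) (f : Yd k j ⟶ Yd k j), τ j f = 0

/-- Base case: the traces. -/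
theorem pd_of_strict (hG : (GT k).Nice) (h : PDStrict hG) : EGr.PD k (XD0 hG) (YD0 k) := by
  rintro τ ⟨h1, h2⟩ i h3 j f
  obtain ⟨f', rfl⟩ := dmap_surjective hG (isNil_Yd j) (isNil_Yd j)
    (z0_of_deg0 hG (Yd_deg0 j) (Yd_deg0 j)) f
  refine h (fun i => τ i ∘ₗ dmap (isNil_Yd i) (isNil_Yd i)) (fun i => ?_) (fun i j f g => ?_) i
    (fun p q => ?_) j f'
  · rw [LinearMap.comp_apply, dmap_id]
    exact h1 i
  · rw [LinearMap.comp_apply, LinearMap.comp_apply, dmap_comp (isNil_Yd i) (isNil_Yd j) (isNil_Yd i),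
      dmap_comp (isNil_Yd j) (isNil_Yd i) (isNil_Yd j)]
    exact h2 i j _ _
  · rw [LinearMap.comp_apply, dmap_comp (isNil_Yd i) (isNil_Sm hG i) (isNil_Yd i)]
    exact h3 _ _

end N0

end GZ
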