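import Pool.Agent.Lib_MP_a23b08_n0.N0Ext
import Pool.Agent.Lib_MP_a23b08_g.GCoh

/-!
# MP_a23b08_al, part N0: `Yd k i` is a nilpotent finite-dimensional module; the simple modules
-/

set_option autoImplicit false

open CategoryTheory

namespace GZ

namespace N0

open DGM

/-- a rank function: it increases under the action of the arrows -/
def rk (b : Fin 80) : ℕ := if b = oB (sB b) then 8 else (wB b).length

theorem rk_lt : ∀ a b, ∀ b' ∈ actT a b, rk b < rk b' := by decide +kernel

theorem rk_le : ∀ b, rk b ≤ 8 := by decide +kernel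

variable {k : Type} [Field k]

theorem length_le_rk (i : Fin 6) (w : List (Gen (Fin 6) (Fin 12))) (b : BY i) :
    ∀ y ∈ actWT (actY i) w b, w.length ≤ rk y.1 := by
  induction w with
  | nil => intro y _; exact Nat.zero_le _
  | cons a w ih =>
    intro y hy
    rw [actWT, Option.mem_def, Option.bind_eq_some_iff] at hy
    obtain ⟨z, hz, h⟩ := hy
    have h1 := ih z hz
    cases a with
    | arr a =>
      have h2 := actY_val i a z
      rw [h] at h2
      have h3 := rk_lt a z.1 y.1 h2.symm
      rw [List.length_cons]
      omega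
    | star a => simp [actY] at h
    | loop v => simp [actY] at h

lemma evW_long (i : Fin 6) (w : List (GT k).A) (hw : 9 ≤ w.length) (x : (Yd k i).M) :
    evW (Yd k i).act w x = 0 := by
  have h : evW (Yd k i).act w = 0 := by
    refine ext_bv fun b => ?_
    have h1 : evW (Yd k i).act w (bv b) = ov (actWT (actY i) w b) := evW_pmap (k := k) (actY i) w b
    rw [h1, LinearMap.zero_apply]
    rcases h2 : actWT (actY i) w b with _ | y
    · rfl
    · have h3 : w.length ≤ rk y.1 := length_le_rk i w b y h2
      have h4 := rk_le y.1
      exact absurd h3 (by omega)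
  rw [h, LinearMap.zero_apply]

instance (i : Fin 6) : Module.Finite k (Yd k i).M := inferInstanceAs (Module.Finite k (BY i →₀ k))

theorem isNil_Yd (i : Fin 6) : IsNil (Yd k i) where
  fin := inferInstance
  nil := ⟨9, fun w hw _ x _ => ⟨0, by rw [evW_long i w hw x]; exact map_zero _⟩⟩

theorem isSm_Sm (hG : (GT k).Nice) (j : Fin 6) : IsSm (Γ := GT k) j (Sm hG j) where
  gr_bot := by
    intro v n h x hx
    by_contra h0
    obtain ⟨h1, h2⟩ := hx h0
    rcases h with h | h
    · exact h h1
    · exact h h2
  d0 := rfl
  act0 _ := rfl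
  one := Module.finrank_self k

end N0

end GZ
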