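import Pool.Agent.Lib_MP_a23b08_n0.N0Defs

/-!
# MP_a23b08_al, part N0: the projectives of the torus quiver with potential

`Yd k i` has the basis `BY i = {b : Fin 80 // sB b = i}` and is concentrated in degree `0`; the arrow `a` acts by
`actT a`, the arrows `a*` and `t_v` act by zero.
-/

set_option autoImplicit false

open CategoryTheory

namespace GZ

namespace N0

variable (k : Type) [Field k]

theorem torus_dW (c : Fin 12) : (torus k).dW c = [((1 : k), w1 c), (-1, w2 c)] := by
  fin_cases c <;> rfl

/-- the basis of `Yd k i` -/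
abbrev BY (i : Fin 6) := {b : Fin 80 // sB b = i}

/-- restriction of a basis element to the basis of `Yd k i` -/
def res (i : Fin 6) (b : Fin 80) : Option (BY i) := if h : sB b = i then some ⟨b, h⟩ else none

/-- the action on the basis of `Yd k i` -/
def actY (i : Fin 6) : Gen (Fin 6) (Fin 12) → BY i → Option (BY i)
  | .arr a, b => (actT a b.1).bind (res i)
  | .star _, _ => none
  | .loop _, _ => none

theorem actY_val (i : Fin 6) (a : Fin 12) (b : BY i) :
    (actY i (.arr a) b).map Subtype.val = actT a b.1 := by
  rcases h : actT a b.1 with _ | b'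
  · simp [actY, h]
  · have h2 := (actT_src a b.1 b' h).2.2
    simp [actY, h, res, h2, b.2]

theorem actWT_actY (i : Fin 6) (w : List (Fin 12)) (b : BY i) :
    (actWT (actY i) (w.map Gen.arr) b).map Subtype.val = actWT actT w b.1 := by
  induction w with
  | nil => rfl
  | cons a w ih =>
    rw [List.map_cons, actWT, actWT, ← ih]
    rcases actWT (actY i) (w.map Gen.arr) b with _ | c
    · rfl
    · exact actY_val i a c

theorem actY_src (i : Fin 6) (a : Gen (Fin 6) (Fin 12)) (x y : BY i) (hy : y ∈ actY i a x) :
    tB x.1 = Gen.gsrc srcA tgtA a ∧ tB y.1 = Gen.gtgt srcA tgtA a ∧ Gen.gdeg a = 0 := by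
  cases a with
  | arr a =>
    have h := actY_val i a x
    rw [Option.mem_def.1 hy] at h
    have h3 := actT_src a x.1 y.1 h.symm
    exact ⟨h3.1, h3.2.1, rfl⟩
  | star a => simp [actY] at hy
  | loop v => simp [actY] at hy

theorem rel_star (i : Fin 6) (c : Fin 12) (x : BY i) :
    evP (fun b => pmap (k := k) (actY i b)) [((1 : k), (w1 c).map Gen.arr), (-1, (w2 c).map Gen.arr)]
      (Finsupp.single x 1) = 0 := by
  rw [evP_cons, evP_cons, evP_nil]
  have e : actWT (actY i) ((w1 c).map Gen.arr) x = actWT (actY i) ((w2 c).map Gen.arr) x := by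
    have h1 := actWT_actY i (w1 c) x
    have h2 := actWT_actY i (w2 c) x
    rw [actT_rel c x.1, ← h2] at h1
    exact Option.map_injective Subtype.val_injective h1
  rw [evW_pmap, evW_pmap, e]
  simp

theorem rel_loop (i : Fin 6) (x : BY i) (p : List (k × List (Gen (Fin 6) (Fin 12))))
    (hp : ∀ t ∈ p, (∃ a, t.2 = [.arr a, .star a]) ∨ ∃ a, t.2 = [.star a, .arr a]) :
    evP (fun b => pmap (k := k) (actY i b)) p (Finsupp.single x 1) = 0 := by
  induction p with
  | nil => simp
  | cons t p ih =>
    rw [evP_cons, ih fun s hs => hp s (List.mem_cons_of_mem _ hs), add_zero]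
    have ht := hp t List.mem_cons_self
    have : evW (fun b => pmap (k := k) (actY i b)) t.2 (Finsupp.single x 1) = 0 := by
      rw [evW_pmap]
      rcases ht with ⟨a, ha⟩ | ⟨a, ha⟩
      · rw [ha]; rfl
      · rw [ha]
        have : actWT (actY i) [Gen.star a, Gen.arr a] x = none := by
          simp only [actWT, Option.bind_some]
          rcases actY i (Gen.arr a) x with _ | y
          · rfl
          · rfl
        rw [this]
        rfl
    rw [this, smul_zero]

theorem mem_gdiff_loop (v : Fin 6) (t : k × List (Gen (Fin 6) (Fin 12)))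
    (ht : t ∈ (torus k).gdiff (Gen.loop v)) :
    (∃ a, t.2 = [.arr a, .star a]) ∨ ∃ a, t.2 = [.star a, .arr a] := by
  rcases List.mem_append.1 ht with h | h
  · obtain ⟨a, -, rfl⟩ := List.mem_map.1 h
    exact Or.inl ⟨a, rfl⟩
  · obtain ⟨a, -, rfl⟩ := List.mem_map.1 h
    exact Or.inr ⟨a, rfl⟩

theorem gdiff_star (c : Fin 12) : (torus k).gdiff (Gen.star c) =
    [((1 : k), (w1 c).map Gen.arr), (-1, (w2 c).map Gen.arr)] :=
  congrArg (List.map fun t : k × List (Fin 12) => (t.1, t.2.map (Gen.arr (V := Fin 6)))) (torus_dW k c)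

/-- the representation `Yd k i` on its basis -/
def repY (i : Fin 6) : PRep (ginz (torus k)) where
  X := BY i
  v b := tB b.1
  act := actY i
  act_src := actY_src i
  rel := by
    intro a x
    cases a with
    | arr a => exact LinearMap.zero_apply _
    | star c =>
      exact (congrArg (fun p : List (k × List (Gen (Fin 6) (Fin 12))) =>
        evP (fun b => pmap (k := k) (actY i b)) p (Finsupp.single x 1)) (gdiff_star k c)).trans
        (rel_star k i c x)
    | loop v => exact rel_loop k i x _ (mem_gdiff_loop k v)

/-- The projective-injective module at the vertex `i`. -/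
noncomputable def Yd (i : Fin 6) : DGM (ginz (torus k)) := (repY k i).dgm

end N0

end GZ
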